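import Pool.Agent.D0H43.Q4.Stm1
import Pool.Agent.D0H84.Q4.Gid

/-!
Project Q4, module D1.4: the algebraic identity for `G`, for the weight `i ^ (σ (N a - 1) / 4)`.
-/

set_option autoImplicit false

open Filter Complex
open scoped Topology PeriodPair
open H667R3 hiding sq
open Pool.Agent.TH936.CM Pool.Agent.W192.HK

namespace Pool.Agent.D0H54.Q4

open H385 (ZI RQ im1 nrm)
open Pool.Agent.H304R3.HK (tc HC LH)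
open Pool.Agent.Y699 hiding wi
open Pool.Agent.W164.RC (tc_mul)
open Pool.Agent.D0H10.Q4
open Pool.Agent.D0H43.Q4
open Pool.Agent.D0H84.Q4 (Odd' nmem' odd_zero)

section alg

lemma algA {P Q P2 Q2 i : ℂ} (hQ : Q ^ 2 = 4 * P ^ 3 - 4 * P) (hi : i ^ 2 = -1)
    (hX : P - -i ≠ 0) (hQ2 : Q2 ≠ 0) (hm : P ^ 2 + 1 ≠ 0)
    (h1 : P2 = P - ((6 * P ^ 2 - 2) * (P - -i) - (Q - 2 * (1 + i)) * Q) / (2 * (P - -i) ^ 2))
    (h2 : Q2 = Q -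
      (((12 * P * Q) * (P - -i) + (6 * P ^ 2 - 2) * Q
      - ((6 * P ^ 2 - 2) * Q + (Q - 2 * (1 + i)) * (6 * P ^ 2 - 2))) * (2 * (P - -i) ^ 2)
      - ((6 * P ^ 2 - 2) * (P - -i) - (Q - 2 * (1 + i)) * Q) * (2 * (2 * (P - -i) * Q)))
      / (2 * (P - -i) ^ 2) ^ 2) :
    -2 * (P2 ^ 2 + 2 * P2 - 1) / Q2 = 2 * (P ^ 2 - 2 * P - 1) / (P ^ 2 + 1) := by
  obtain ⟨X, hXd⟩ : ∃ X, X = P - -i := ⟨_, rfl⟩
  rw [← hXd] at h1 h2 hX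
  have k1 : P2 * X ^ 2 = -i * (P - i) ^ 2 - (1 + i) * Q := by
    have : P2 * (2 * X ^ 2) = 2 * X ^ 2 * P - ((6 * P ^ 2 - 2) * X - (Q - 2 * (1 + i)) * Q) := by
      rw [h1]; field_simp
    subst hXd
    linear_combination (1 / 2) * this + (1 / 2) * hQ + (i - P) * hi
  have k2 : Q2 * X ^ 3 = 4 * Q * (P - i) + 2 * (1 + i) * (P - i) ^ 3 := by
    have h4 : (4 * X) * (Q2 * X ^ 3) = 4 * X ^ 4 * Q - ((((12 * P * Q) * X + (6 * P ^ 2 - 2) * Q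
      - ((6 * P ^ 2 - 2) * Q + (Q - 2 * (1 + i)) * (6 * P ^ 2 - 2))) * (2 * X ^ 2)
      - ((6 * P ^ 2 - 2) * X - (Q - 2 * (1 + i)) * Q) * (2 * (2 * X * Q)))) := by
      rw [h2]; field_simp; ring
    apply mul_left_cancel₀ (a := 4 * X) (mul_ne_zero (by norm_num) hX)
    rw [h4]
    subst hXd
    linear_combination (-4*Q*i - 4*Q*P + 8*i^2 + 8*i*P + 8*i + 8*P) * hQ + (4*Q*i^2 - 8*Q*i*P - 12*Q*P^2 + 8*i^3 - 16*i^2*P + 8*i^2 - 24*i*P^2 - 16*i*P - 24*P^2) * hi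
  have hm2 : P ^ 2 + 1 = X * (P - i) := by
    subst hXd
    linear_combination hi
  have key : -((-i * (P - i) ^ 2 - (1 + i) * Q) ^ 2 +
      2 * (-i * (P - i) ^ 2 - (1 + i) * Q) * X ^ 2 - X ^ 4) =
      (P ^ 2 - 2 * P - 1) * (4 * Q + 2 * (1 + i) * (P - i) ^ 2) := by
    subst hXd
    linear_combination (-i^2 - 2*i - 1) * hQ + (-2*Q*i^2 + 4*Q*i*P - 2*Q*P^2 + 8*Q*P + 4*Q - i^4 + 4*i^3*P + 2*i^3 - 6*i^2*P^2 + 2*i^2 + 4*i*P^3 - 6*i*P^2 + 4*i*P - P^4 + 2*P^2 + 4*P) * hi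
  rw [div_eq_div_iff hQ2 hm]
  have hX4 : X ^ 4 ≠ 0 := pow_ne_zero _ hX
  apply mul_left_cancel₀ hX4
  have e1 : X ^ 4 * (P2 ^ 2 + 2 * P2 - 1) = (-i * (P - i) ^ 2 - (1 + i) * Q) ^ 2 +
      2 * (-i * (P - i) ^ 2 - (1 + i) * Q) * X ^ 2 - X ^ 4 := by
    linear_combination (P2 * X ^ 2 + (-i * (P - i) ^ 2 - (1 + i) * Q) + 2 * X ^ 2) * k1
  calc X ^ 4 * (-2 * (P2 ^ 2 + 2 * P2 - 1) * (P ^ 2 + 1))
      = 2 * (-(X ^ 4 * (P2 ^ 2 + 2 * P2 - 1))) * (P ^ 2 + 1) := by ring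
    _ = 2 * ((P ^ 2 - 2 * P - 1) * (4 * Q + 2 * (1 + i) * (P - i) ^ 2)) * (X * (P - i)) := by
        rw [e1, hm2, ← key]
    _ = X ^ 4 * (2 * (P ^ 2 - 2 * P - 1) * Q2) := by
        linear_combination (-2 * (P ^ 2 - 2 * P - 1) * X) * k2

lemma algB {x y X Y a e : ℂ} (hy : y ^ 2 = 4 * x ^ 3 - 4 * x) (he : e ^ 2 = -1)
    (ha : a ^ 2 = 2 * a + 1) (hd : x - a ≠ 0)
    (h1 : X = x - ((6 * x ^ 2 - 2) * (x - a) - (y - -2 * (a + 1)) * y) / (2 * (x - a) ^ 2))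
    (h2 : Y = y -
      (((12 * x * y) * (x - a) + (6 * x ^ 2 - 2) * y
      - ((6 * x ^ 2 - 2) * y + (y - -2 * (a + 1)) * (6 * x ^ 2 - 2))) * (2 * (x - a) ^ 2)
      - ((6 * x ^ 2 - 2) * (x - a) - (y - -2 * (a + 1)) * y) * (2 * (2 * (x - a) * y)))
      / (2 * (x - a) ^ 2) ^ 2) :
    (X ^ 2 + 1 + e * Y) * (y - 2 * x - 2) ^ 2 =
      8 * (a - 1) * (1 - e) * (x + e) ^ 2 * (x + 1) * X := by
  obtain ⟨d, hdd⟩ : ∃ d, d = x - a := ⟨_, rfl⟩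
  rw [← hdd] at h1 h2 hd
  have k1 : X * d ^ 2 = a * ((x ^ 2 + 2 * x - 1) + (a - 1) * y) := by
    have : X * (2 * d ^ 2) = 2 * d ^ 2 * x - ((6 * x ^ 2 - 2) * d - (y - -2 * (a + 1)) * y) := by
      rw [h1]; field_simp
    subst hdd
    linear_combination (1 / 2) * this + (1 / 2) * hy + (-y + x) * ha
  have k2 : Y * d ^ 3 = -2 * ((3 * a + 1) * (x + a - 2) * y +
      (a - 1) * (a * x ^ 3 + (3 + 6 * a) * x ^ 2 - 3 * a * x - (2 * a + 1))) := by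
    have h4 : (4 * d) * (Y * d ^ 3) = 4 * d ^ 4 * y - ((((12 * x * y) * d + (6 * x ^ 2 - 2) * y
      - ((6 * x ^ 2 - 2) * y + (y - -2 * (a + 1)) * (6 * x ^ 2 - 2))) * (2 * d ^ 2)
      - ((6 * x ^ 2 - 2) * d - (y - -2 * (a + 1)) * y) * (2 * (2 * d * y)))) := by
      rw [h2]; field_simp; ring
    apply mul_left_cancel₀ (a := 4 * d) (mul_ne_zero (by norm_num) hd)
    rw [h4]
    subst hdd
    linear_combination (-4*y*x + 4*y*a - 8*x*a - 8*x + 8*a^2 + 8*a) * hy + (-12*y*x^2 + 8*y*x*a + 16*y*x + 4*y*a^2 - 16*y*a + 8*x^4 - 8*x^3*a + 24*x^3 - 24*x^2*a - 24*x^2 + 24*x*a - 8*x + 8*a) * ha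
  have key : (a ^ 2 * ((x ^ 2 + 2 * x - 1) + (a - 1) * y) ^ 2 + d ^ 4 +
      e * d * (-2) * ((3 * a + 1) * (x + a - 2) * y +
      (a - 1) * (a * x ^ 3 + (3 + 6 * a) * x ^ 2 - 3 * a * x - (2 * a + 1)))) *
      (y - 2 * x - 2) ^ 2 = 8 * (a - 1) * (1 - e) * (x + e) ^ 2 * (x + 1) * d ^ 2 *
      (a * ((x ^ 2 + 2 * x - 1) + (a - 1) * y)) := by
    subst hdd
    linear_combination (y^2*a^4 - 2*y^2*a^3 + y^2*a^2 + 6*y*e*a^3 - 10*y*e*a^2 - 6*y*e*a*x^2 + 12*y*e*a*x - 4*y*e*a - 2*y*e*x^2 + 4*y*e*x - 4*y*a^4*x - 4*y*a^4 + 2*y*a^3*x^2 + 12*y*a^3*x + 6*y*a^3 - 2*y*a^2*x^2 - 8*y*a^2*x - 2*y*a^2 + 2*e*a^3*x^3 + 12*e*a^3*x^2 - 30*e*a^3*x - 28*e*a^3 - 2*e*a^2*x^4 - 14*e*a^2*x^3 + 50*e*a^2*x + 42*e*a^2 + 2*e*a*x^4 + 30*e*a*x^3 - 36*e*a*x^2 - 34*e*a*x + 18*e*a + 14*e*x^3 - 8*e*x^2 - 18*e*x + 4*a^4*x^2 + 8*a^4*x + 5*a^4 - 32*a^3*x^2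 - 36*a^3*x + a^2*x^4 + 36*a^2*x^2 + 24*a^2*x - 3*a^2 - 4*a*x^3 + x^4 + 4*x^3 - 4*x) * hy +
      (8*y*e*a^5*x + 8*y*e*a^5 - 16*y*e*a^4*x^2 - 32*y*e*a^4*x - 16*y*e*a^4 + 8*y*e*a^3*x^3 + 40*y*e*a^3*x^2 + 40*y*e*a^3*x + 8*y*e*a^3 - 16*y*e*a^2*x^3 - 32*y*e*a^2*x^2 - 16*y*e*a^2*x + 8*y*e*a*x^3 + 8*y*e*a*x^2 + 16*y*a^5*x^2 + 8*y*a^5*x - 8*y*a^5 - 32*y*a^4*x^3 - 48*y*a^4*x^2 + 16*y*a^4 + 16*y*a^3*x^4 + 72*y*a^3*x^3 + 40*y*a^3*x^2 - 24*y*a^3*x - 8*y*a^3 - 32*y*a^2*x^4 - 48*y*a^2*x^3 + 16*y*a^2*x + 16*y*a*x^4 + 8*y*a*x^3 - 8*y*a*x^2 + 8*e*a^4*x^3 + 24*e*a^4*x^2 + 8*e*a^4*x - 8*e*a^4 - 16*e*a^3*x^4 - 56*e*a^3*x^3 - 40*e*a^3*x^2 + 8*e*a^3*x + 8*e*a^3 + 8*e*a^2*x^5 + 40*e*a^2*x^4 + 56*e*a^2*x^3 + 8*e*a^2*x^2 - 16*e*a^2*x - 8*e*a*x^5 - 24*e*a*x^4 - 8*e*a*x^3 + 8*e*a*x^2 + 16*a^4*x^4 + 40*a^4*x^3 - 8*a^4*x^2 - 24*a^4*x +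 8*a^4 - 32*a^3*x^5 - 96*a^3*x^4 - 24*a^3*x^3 + 56*a^3*x^2 + 8*a^3*x - 8*a^3 + 16*a^2*x^6 + 72*a^2*x^5 + 72*a^2*x^4 - 40*a^2*x^3 - 40*a^2*x^2 + 16*a^2*x - 16*a*x^6 - 40*a*x^5 + 8*a*x^4 + 24*a*x^3 - 8*a*x^2) * he +
      (4*y^2*a^2*x^3 - 4*y^2*a^2*x - 8*y^2*a*x^3 + 8*y^2*a*x + 4*y^2*x^3 - 4*y^2*x + 8*y*e*a^3*x^3 - 8*y*e*a^3*x^2 - 24*y*e*a^3*x - 8*y*e*a^3 - 16*y*e*a^2*x^4 + 16*y*e*a^2*x^3 + 48*y*e*a^2*x^2 + 16*y*e*a^2*x + 8*y*e*a*x^5 - 16*y*e*a*x^4 - 40*y*e*a*x^3 - 24*y*e*a*x^2 + 16*y*e*a*x + 24*y*e*a + 8*y*e*x^5 + 16*y*e*x^4 + 16*y*e*x^3 - 16*y*e*x^2 - 24*y*e*x - 8*y*a^3*x^3 - 24*y*a^3*x^2 - 8*y*a^3*x + 8*y*a^3 + 32*y*a^2*x^3 + 32*y*a^2*x^2 - 4*y*a^2*x - 4*y*a^2 - 8*y*a*x^3 - 8*y*a*x^2 + 4*y*x^5 + 4*y*x^4 + 8*e*a^2*x^5 + 8*e*a^2*x^4 - 48*e*a^2*x^3 - 48*e*a^2*x^2 + 8*e*a^2*x + 8*e*a^2 - 8*e*a*x^6 + 48*e*a*x^5 +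 40*e*a*x^4 - 32*e*a*x^3 + 40*e*a*x^2 + 48*e*a*x - 8*e*a - 56*e*x^6 + 8*e*x^5 + 80*e*x^4 - 48*e*x^3 - 56*e*x^2 + 8*e*x + 8*a^2*x^5 - 8*a^2*x^4 - 44*a^2*x^3 - 12*a^2*x^2 + 12*a^2*x - 4*a^2 + 16*a*x^6 - 24*a*x^5 - 24*a*x^4 + 40*a*x^3 + 24*a*x^2 - 4*x^7 - 20*x^6 - 4*x^5 + 28*x^4 - 16*x^2) * ha
  apply mul_left_cancel₀ (pow_ne_zero 4 hd)
  have e1 : d ^ 4 * (X ^ 2 + 1 + e * Y) =
      a ^ 2 * ((x ^ 2 + 2 * x - 1) + (a - 1) * y) ^ 2 + d ^ 4 +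
      e * d * (-2) * ((3 * a + 1) * (x + a - 2) * y +
      (a - 1) * (a * x ^ 3 + (3 + 6 * a) * x ^ 2 - 3 * a * x - (2 * a + 1))) := by
    linear_combination (X * d ^ 2 + a * ((x ^ 2 + 2 * x - 1) + (a - 1) * y)) * k1 + (e * d) * k2
  calc d ^ 4 * ((X ^ 2 + 1 + e * Y) * (y - 2 * x - 2) ^ 2)
      = (d ^ 4 * (X ^ 2 + 1 + e * Y)) * (y - 2 * x - 2) ^ 2 := by ring
    _ = 8 * (a - 1) * (1 - e) * (x + e) ^ 2 * (x + 1) * d ^ 2 *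
      (a * ((x ^ 2 + 2 * x - 1) + (a - 1) * y)) := by rw [e1, key]
    _ = d ^ 4 * (8 * (a - 1) * (1 - e) * (x + e) ^ 2 * (x + 1) * X) := by
        linear_combination (-8 * (a - 1) * (1 - e) * (x + e) ^ 2 * (x + 1) * d ^ 2) * k1

/-- the square -/
lemma algC {P Q X Y e : ℂ} (hQ : Q ^ 2 = 4 * P ^ 3 - 4 * P) (hQ0 : Q ≠ 0) (he : e ^ 2 = -1)
    (hm : P ^ 2 + 1 ≠ 0)
    (h1 : X = -2 * P + (6 * P ^ 2 - 2) ^ 2 / (4 * Q ^ 2))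
    (h2 : Y = (-2 * Q +
      ((2 * (6 * P ^ 2 - 2) * (12 * P * Q)) * (4 * Q ^ 2)
        - (6 * P ^ 2 - 2) ^ 2 * (4 * (2 * Q * (6 * P ^ 2 - 2))))
      / (4 * Q ^ 2) ^ 2) / 2) :
    Q ^ 2 * X = (P ^ 2 + 1) ^ 2 ∧
    (-2 * (P ^ 2 + 2 * P - 1) / Q - e * (2 * (P ^ 2 - 2 * P - 1) / (P ^ 2 + 1))) ^ 2 * X =
      4 * (X ^ 2 + 1 + e * Y) := by
  have r1 : Q ^ 2 * X = (P ^ 2 + 1) ^ 2 := by
    have : 4 * (Q ^ 2 * X) = -8 * P * Q ^ 2 + (6 * P ^ 2 - 2) ^ 2 := by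
      rw [h1]; field_simp; ring
    linear_combination (1 / 4) * this - 2 * P * hQ
  have r2 : Q ^ 3 * Y = 2 * (P ^ 2 + 1) * (P ^ 2 - 2 * P - 1) * (P ^ 2 + 2 * P - 1) := by
    have : 16 * (Q ^ 3 * Y) = -16 * Q ^ 4 + ((2 * (6 * P ^ 2 - 2) * (12 * P)) * (4 * Q ^ 2)
        - (6 * P ^ 2 - 2) ^ 2 * (4 * (2 * (6 * P ^ 2 - 2)))) / 2 := by
      rw [h2]; field_simp; ring
    linear_combination (1 / 16) * this - (Q ^ 2 + 4 * P ^ 3 - 4 * P - 18 * P ^ 3 + 6 * P) * hQ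
  have r3 : Q ^ 2 * (X + 1) = (P ^ 2 + 2 * P - 1) ^ 2 := by
    linear_combination r1 + hQ
  have r4 : Q ^ 2 * (X - 1) = (P ^ 2 - 2 * P - 1) ^ 2 := by
    linear_combination r1 - hQ
  refine ⟨r1, ?_⟩
  have hX1 : X = (P ^ 2 + 1) ^ 2 / Q ^ 2 := by
    rw [← r1]; field_simp
  have e1 : (-2 * (P ^ 2 + 2 * P - 1) / Q - e * (2 * (P ^ 2 - 2 * P - 1) / (P ^ 2 + 1))) ^ 2 * X =
      4 * (((P ^ 2 + 2 * P - 1) * (P ^ 2 + 1) + e * (P ^ 2 - 2 * P - 1) * Q) / Q ^ 2) ^ 2 := by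
    rw [hX1]
    generalize P ^ 2 + 1 = u at hm ⊢
    generalize P ^ 2 + 2 * P - 1 = m
    generalize P ^ 2 - 2 * P - 1 = n
    field_simp
    ring
  rw [e1]
  have hQ4 : Q ^ 4 ≠ 0 := pow_ne_zero _ hQ0
  apply mul_left_cancel₀ hQ4
  have e2 : Q ^ 4 * (4 * (((P ^ 2 + 2 * P - 1) * (P ^ 2 + 1) + e * (P ^ 2 - 2 * P - 1) * Q) / Q ^ 2) ^ 2) =
      4 * ((P ^ 2 + 2 * P - 1) * (P ^ 2 + 1) + e * (P ^ 2 - 2 * P - 1) * Q) ^ 2 := by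
    field_simp
  rw [e2]
  linear_combination (-4 * (P ^ 2 + 1) ^ 2) * r3 - 4 * Q ^ 2 * (X + 1) * r1 +
    4 * (P ^ 2 - 2 * P - 1) ^ 2 * Q ^ 2 * he + 4 * Q ^ 2 * r4 - 4 * e * Q * r2

end alg

variable {L : PeriodPair} {Ω s : ℂ}

lemma s_ne (h : NL L Ω s) : 1 + s ≠ 0 := by
  intro h0
  have h1 : s = -1 := by linear_combination h0
  have h2 := h.ss
  rw [h1] at h2
  norm_num at h2

/-- the point `(1 + i) Ω / 4` -/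
lemma val_T (h : NL L Ω s) : ℘[L] (Ω / 4 + I * (Ω / 4)) = -I ∧
    ℘'[L] (Ω / 4 + I * (Ω / 4)) = 2 * (1 + I) := by
  have hg := h.gl
  have hz := odd_zero (L := L)
  have n1 : 2 * (Ω / 4) ∉ L.lattice := nmem' hg hz 0 4 0 (Or.inl (by decide)) (by push_cast; ring)
  have n2 : I * (Ω / 4) ∉ L.lattice := nmem' hg hz 0 0 2 (Or.inr (by decide)) (by push_cast; ring)
  have n3 : Ω / 4 + I * (Ω / 4) ∉ L.lattice :=
    nmem' hg hz 0 2 2 (Or.inl (by decide)) (by push_cast; ring)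
  have n4 : Ω / 4 - I * (Ω / 4) ∉ L.lattice :=
    nmem' hg hz 0 2 (-2) (Or.inl (by decide)) (by push_cast; ring)
  have hx4 : ℘[L] (I * (Ω / 4)) = -(1 + s) := by rw [wp_I hg.lat, h.x4]
  have hy4 : ℘'[L] (I * (Ω / 4)) = 2 * (s * I) * -(1 + s) := by rw [wp'_I hg.lat, h.y4]; ring
  have hadd := wp_add L n1 n2 n3 n4
  have hadd' := wp'_add L n1 n2 n3 n4
  rw [hg.g2, hx4, hy4, h.x4, h.y4] at hadd hadd'
  have e4 : (4 : ℂ) / 2 = 2 := by norm_num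
  rw [e4] at hadd hadd'
  have ha := s_ne h
  have hss := h.ss
  have hD : 2 * (1 + s - -(1 + s)) ^ 2 ≠ 0 := by
    have e : 2 * (1 + s - -(1 + s)) ^ 2 = 8 * (1 + s) ^ 2 := by ring
    rw [e]
    exact mul_ne_zero (by norm_num) (pow_ne_zero 2 ha)
  constructor
  · rw [hadd]
    have e : ((6 * (1 + s) ^ 2 - 2) * (1 + s - -(1 + s)) - (-2 * s * (1 + s) - 2 * (s * I) * -(1 + s)) *
        (-2 * s * (1 + s))) / (2 * (1 + s - -(1 + s)) ^ 2) = (1 + s) + I := by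
      rw [div_eq_iff hD]
      linear_combination (4*s^2*I - 4*s^2 + 8*s*I - 4*s + 4*I) * hss
    rw [e]
    ring
  · rw [hadd']
    have e : ∀ N : ℂ, N = (-2 * s * (1 + s) - 2 * (1 + I)) * (2 * (1 + s - -(1 + s)) ^ 2) ^ 2 →
        -2 * s * (1 + s) - N / (2 * (1 + s - -(1 + s)) ^ 2) ^ 2 = 2 * (1 + I) := by
      intro N hN
      rw [hN, mul_div_assoc, div_self (pow_ne_zero 2 hD)]
      ring
    apply e
    linear_combination (64*s^5*I - 64*s^5 + 160*s^4*I - 224*s^4 + 32*s^3*I - 352*s^3 - 224*s^2*I - 352*s^2 - 224*s*I - 224*s - 64*I - 64) * hss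

/-- the formula for the square of `G` -/
theorem gi_sq (h : NL L Ω s) {σ : ℕ} (hσ : σ % 2 = 1) {z : ℂ} (hz : Odd' L z) :
    ℘[L] (2 * z + Ω / 4) ≠ 0 ∧
    GI σ L Ω z ^ 2 * ℘[L] (2 * z + Ω / 4) = 4 * (℘[L] (2 * z + Ω / 4) ^ 2 + 1 +
      I ^ σ * ℘'[L] (2 * z + Ω / 4)) := by
  have hg := h.gl
  obtain ⟨he, he3⟩ : (I ^ σ) ^ 2 = -1 ∧ I ^ (3 * σ) = -(I ^ σ) := by
    have h1 : (I ^ σ) ^ 2 = -1 := by
      rw [← pow_mul, mul_comm, pow_mul, I_sq]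
      exact Odd.neg_one_pow (Nat.odd_iff.2 hσ)
    refine ⟨h1, ?_⟩
    rw [mul_comm, pow_mul]
    linear_combination (I ^ σ) * h1
  -- the points
  obtain ⟨w, hw⟩ : ∃ w, w = z + Ω / 8 := ⟨_, rfl⟩
  obtain ⟨T, hT⟩ : ∃ T, T = Ω / 4 + I * (Ω / 4) := ⟨_, rfl⟩
  have n2w : 2 * w ∉ L.lattice := nmem' hg hz 2 2 0 (Or.inl (by decide)) (by rw [hw]; push_cast; ring)
  have nT : T ∉ L.lattice := nmem' hg odd_zero 0 2 2 (Or.inr (by decide)) (by rw [hT]; push_cast; ring)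
  have nwT : w + T ∉ L.lattice := nmem' hg hz 1 3 2 (Or.inl (by decide)) (by rw [hw, hT]; push_cast; ring)
  have nwT' : w - T ∉ L.lattice := nmem' hg hz 1 (-1) (-2) (Or.inl (by decide)) (by rw [hw, hT]; push_cast; ring)
  have n2 : 2 * (w + T) ∉ L.lattice := nmem' hg hz 2 6 4 (Or.inl (by decide)) (by rw [hw, hT]; push_cast; ring)
  have nw := GLat.two_notMem n2w
  have e2w : 2 * w = 2 * z + Ω / 4 := by rw [hw]; ring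
  -- the values
  have hQ := hg.eqn nw
  have hQ0 := wp'_ne_zero L n2w
  have hQ2 := wp'_ne_zero L n2
  obtain ⟨hx4, hy4⟩ := val_T h
  rw [← hT] at hx4 hy4
  have hXa : ℘[L] w - -I ≠ 0 := by
    intro h0
    have h1 : ℘[L] w = ℘[L] T := by rw [hx4]; linear_combination h0
    rcases (wp_eq_iff L nw nT).1 h1 with h2 | h2
    · exact nwT h2
    · exact nwT' h2
  have hXb : ℘[L] w - I ≠ 0 := by
    intro h0
    have nIT : I * T ∉ L.lattice :=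
      nmem' hg odd_zero 0 (-2) 2 (Or.inr (by decide)) (by rw [hT]; push_cast; linear_combination (Ω / 4) * I_sq)
    have h1 : ℘[L] w = ℘[L] (I * T) := by rw [wp_I hg.lat, hx4]; linear_combination h0
    rcases (wp_eq_iff L nw nIT).1 h1 with h2 | h2
    · exact nmem' hg hz 1 (-1) 2 (Or.inl (by decide))
        (by rw [hw, hT]; push_cast; linear_combination (Ω / 4) * I_sq) h2
    · exact nmem' hg hz 1 3 (-2) (Or.inl (by decide))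
        (by rw [hw, hT]; push_cast; linear_combination (-(Ω / 4)) * I_sq) h2
  have hm : ℘[L] w ^ 2 + 1 ≠ 0 := by
    have e : ℘[L] w ^ 2 + 1 = (℘[L] w - -I) * (℘[L] w - I) := by linear_combination I_sq
    rw [e]
    exact mul_ne_zero hXa hXb
  have hdup := wp_two L n2w
  have hdup' := wp'_two L n2w
  have hadd := wp_add L n2w nT nwT nwT'
  have hadd' := wp'_add L n2w nT nwT nwT'
  rw [hg.g2] at hdup hdup' hadd hadd'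
  have e4 : (4 : ℂ) / 2 = 2 := by norm_num
  rw [e4] at hdup hdup' hadd hadd'
  rw [hx4, hy4] at hadd hadd'
  have a1 := algA hQ I_sq hXa hQ2 hm hadd hadd'
  obtain ⟨a0, a2⟩ := algC hQ hQ0 he hm hdup hdup'
  rw [← e2w]
  refine ⟨?_, ?_⟩
  · intro h0
    rw [h0, mul_zero] at a0
    exact hm (pow_eq_zero_iff two_ne_zero |>.1 a0.symm)
  rw [← a2]
  have e : GI σ L Ω z = -2 * (℘[L] w ^ 2 + 2 * ℘[L] w - 1) / ℘'[L] w -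
      I ^ σ * (2 * (℘[L] w ^ 2 - 2 * ℘[L] w - 1) / (℘[L] w ^ 2 + 1)) := by
    have eT : z + Ω / 8 + (1 + I) * (Ω / 4) = w + T := by rw [hw, hT]; ring
    unfold GI BB
    rw [eT, ← hw, a1, he3]
    ring
  rw [e]

/-- the value at zero -/
theorem gi_zero (h : NL L Ω s) {σ : ℕ} (hσ : σ % 2 = 1) : GI σ L Ω 0 ^ 2 = 8 * s * (1 - I ^ σ) := by
  obtain ⟨h1, h2⟩ := gi_sq h hσ (odd_zero (L := L))
  have e : 2 * (0 : ℂ) + Ω / 4 = Ω / 4 := by ring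
  rw [e, h.x4, h.y4] at h2
  rw [e, h.x4] at h1
  apply mul_right_cancel₀ h1
  rw [h2]
  linear_combination (-4) * h.ss

theorem gid1 : S_GID1 := by
  intro σ hσ L Ω s h
  refine ⟨gi_zero h hσ, fun z hz => ?_⟩
  have hg := h.gl
  have hzo : Odd' L z := hz.ex
  obtain ⟨h1, h2⟩ := gi_sq h hσ hzo
  rw [gi_zero h hσ]
  apply mul_right_cancel₀ h1
  have he : (I ^ σ) ^ 2 = -1 := by
    rw [← pow_mul, mul_comm, pow_mul, I_sq]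
    exact Odd.neg_one_pow (Nat.odd_iff.2 hσ)
  -- the points
  have n2 : 2 * z ∉ L.lattice := hz.two hg
  have n4 : 2 * (2 * z) ∉ L.lattice := by
    intro h'
    apply (hz.pow hg 4).nm
    have h3 := neg_mem h'
    have e : -(2 * (2 * z)) = (1 + I) ^ 4 * z := by
      linear_combination (-z * (I ^ 2 + 4 * I + 5)) * I_sq
    rwa [e] at h3
  have nT : Ω / 4 ∉ L.lattice := nmem' hg hzo 0 2 0 (Or.inl (by decide)) (by push_cast; ring)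
  have nzT : 2 * z + Ω / 4 ∉ L.lattice := nmem' hg hzo 2 2 0 (Or.inl (by decide)) (by push_cast; ring)
  have nzT' : 2 * z - Ω / 4 ∉ L.lattice := nmem' hg hzo 2 (-2) 0 (Or.inl (by decide)) (by push_cast; ring)
  have hy := hg.eqn n2
  have hadd := wp_add L n4 nT nzT nzT'
  have hadd' := wp'_add L n4 nT nzT nzT'
  rw [hg.g2] at hadd hadd'
  have e4 : (4 : ℂ) / 2 = 2 := by norm_num
  rw [e4, h.x4, h.y4] at hadd hadd'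
  have hd : ℘[L] (2 * z) - (1 + s) ≠ 0 := by
    intro h0
    have h3 : ℘[L] (2 * z) = ℘[L] (Ω / 4) := by rw [h.x4]; linear_combination h0
    rcases (wp_eq_iff L n2 nT).1 h3 with h4 | h4
    · exact nzT h4
    · exact nzT' h4
  have eb : -2 * s * (1 + s) = -2 * ((1 + s) + 1) := by linear_combination (-2) * h.ss
  rw [eb] at hadd hadd'
  have a1 := algB (a := 1 + s) hy he (by linear_combination h.ss) hd hadd hadd'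
  have es : 1 + s - 1 = s := by ring
  rw [es] at a1
  linear_combination (℘'[L] (2 * z) - 2 * ℘[L] (2 * z) - 2) ^ 2 * h2 + 4 * a1

end Pool.Agent.D0H54.Q4
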