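import Pool.Agent.D0H10.Q4.Cp

/-!
Project Q4, module A3: the Hecke character attached to the multiplicative system `Cc`.
-/

set_option autoImplicit false
set_option linter.unusedSectionVars false
set_option linter.unusedSimpArgs false

open Filter Complex
open scoped Topology PeriodPair
open Pool.Agent.TH936.CM

namespace Pool.Agent.D0H54.Q4

open H385 (ZI RQ im1 nrm)
open Pool.Agent.H304R3.HK (tc HC LH bH TH FF Th th_psi chi_le)
open Pool.Agent.Y699
open Pool.Agent.D0H10.Q4
open Pool.Agent.W164.RC (tc_mul tc_star two2 prim_iff_dvd unit_norm unit_cases)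
open Pool.Agent.H304R2.EC.A1 (prim prim_mul prim_cancel prim_one prim_norm_odd prim_star eq_one_of_prim
  norm_def' re_mul' im_mul' eq_of_dvd prim_ne_zero exists_prim)

/-- a unit which moves `a` into the system of representatives -/
def Uc (a u : ZI) : Prop := u.norm = 1 ∧ Cc (u * a)

lemma Cc_odd {a : ZI} (h : Cc a) : a.norm % 2 = 1 := by
  obtain ⟨h1, h2⟩ := h
  obtain ⟨x, hx⟩ : ∃ x, a.re = 1 + 4 * x := ⟨a.re / 4, by omega⟩
  obtain ⟨y, hy⟩ : ∃ y, a.im = 2 * y := ⟨a.im / 2, by omega⟩
  have e : a.norm = 1 + 2 * (4 * x + 8 * x ^ 2 + 2 * y ^ 2) := by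
    rw [norm_def', hx, hy]; ring
  rw [e]
  omega

lemma Uc.odd {a u : ZI} (h : Uc a u) : a.norm % 2 = 1 := by
  have h1 := Cc_odd h.2
  rwa [Zsqrtd.norm_mul, h.1, one_mul] at h1

lemma unit_Cc {u : ZI} (hu : u.norm = 1) (h : Cc u) : u = 1 := by
  rcases unit_cases hu with h2 | h2 | h2 | h2
  · exact h2
  all_goals
    exfalso
    rw [h2] at h
    revert h
    unfold Cc
    decide

lemma Uc.unique {a u u' : ZI} (h : Uc a u) (h' : Uc a u') : u = u' := by
  have h1 : (u * a) * (u' * star u) = u' * a := by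
    linear_combination (u' * a) * unit_mul_star h.1
  have h2 : Cc (u' * star u) := Cc_cancel h.2 (by rw [h1]; exact h'.2)
  have h3 : (u' * star u).norm = 1 := by
    rw [Zsqrtd.norm_mul, h'.1, Zsqrtd.norm_conj, h.1, one_mul]
  have h4 := unit_Cc h3 h2
  have h5 : u' * star u * u = u' := by
    linear_combination u' * unit_mul_star h.1
  rw [h4, one_mul] at h5
  exact h5

lemma exists_Uc {a : ZI} (ha : a.norm % 2 = 1) : ∃ u, Uc a u := by
  obtain ⟨u, hu⟩ := exists_Um ha
  rcases cp_cases (u * a) with h | h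
  · exact ⟨u, hu.1, by rw [← h]; exact cp_Cc hu.2⟩
  · exact ⟨-u, by rw [Zsqrtd.norm_neg]; exact hu.1, by rw [neg_mul, ← h]; exact cp_Cc hu.2⟩

lemma Uc.mul {a b u w : ZI} (h : Uc a u) (h' : Uc b w) : Uc (a * b) (u * w) := by
  refine ⟨by rw [Zsqrtd.norm_mul, h.1, h'.1, one_mul], ?_⟩
  have e : u * w * (a * b) = (u * a) * (w * b) := by ring
  rw [e]
  exact Cc_mul h.2 h'.2

open Classical in
/-- the unit -/
noncomputable def uc (a : ZI) : ZI := if h : ∃ u, Uc a u then h.choose else 0

lemma uc_eq {a u : ZI} (h : Uc a u) : uc a = u := by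
  have h1 : ∃ u, Uc a u := ⟨u, h⟩
  unfold uc
  rw [dif_pos h1]
  exact h1.choose_spec.unique h

lemma uc_even {a : ZI} (ha : a.norm % 2 ≠ 1) : uc a = 0 := by
  unfold uc
  rw [dif_neg]
  rintro ⟨u, hu⟩
  exact ha hu.odd

lemma uc_Cc {a : ZI} (ha : Cc a) : uc a = 1 := uc_eq ⟨by decide, by rwa [one_mul]⟩

lemma rh_one : rh 1 = 1 := by unfold rh; decide

variable {ι : Type} [DecidableEq ι] {pr : ι → ZI}

/-- the Hecke character -/
noncomputable def XC (hp : PF pr) (V : Finset ι) (e : ι → ℕ) : ZI →* ℂ where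
  toFun a := tc (uc a) * (starRingEnd ℂ) (tc (rh (uc a * a) * c4 pr V e (uc a * a)))
  map_one' := by
    rw [uc_Cc Cc_one, one_mul, c4_one hp, rh_one, mul_one, tc_one]
    simp
  map_mul' := by
    intro a b
    by_cases ha : a.norm % 2 = 1
    · by_cases hb : b.norm % 2 = 1
      · obtain ⟨u, hu⟩ := exists_Uc ha
        obtain ⟨w, hw⟩ := exists_Uc hb
        rw [uc_eq hu, uc_eq hw, uc_eq (hu.mul hw)]
        have e1 : u * w * (a * b) = (u * a) * (w * b) := by ring
        rw [e1, c4_mul hp, rh_mul hu.2 hw.2]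
        simp only [tc_mul, map_mul]
        ring
      · have h1 : (a * b).norm % 2 ≠ 1 := by
          rw [Zsqrtd.norm_mul, Int.mul_emod]
          have : b.norm % 2 = 0 := by omega
          rw [this]; simp
        rw [uc_even h1, uc_even hb, tc_zero, zero_mul, zero_mul, mul_zero]
    · have h1 : (a * b).norm % 2 ≠ 1 := by
        rw [Zsqrtd.norm_mul, Int.mul_emod]
        have : a.norm % 2 = 0 := by omega
        rw [this]; simp
      rw [uc_even h1, uc_even ha, tc_zero, zero_mul, zero_mul, zero_mul]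

lemma XC_apply (hp : PF pr) (V : Finset ι) (e : ι → ℕ) (a : ZI) :
    XC hp V e a = tc (uc a) * (starRingEnd ℂ) (tc (rh (uc a * a) * c4 pr V e (uc a * a))) := rfl

lemma XC_Cc (hp : PF pr) (V : Finset ι) (e : ι → ℕ) {a : ZI} (ha : Cc a) :
    XC hp V e a = (starRingEnd ℂ) (tc (rh a * c4 pr V e a)) := by
  rw [XC_apply, uc_Cc ha, tc_one, one_mul, one_mul]

lemma eight_eq_pi : (8 : ZI) = pi1 ^ 6 * ⟨0, 1⟩ := by decide

lemma cop_cnC (hp : PF pr) (V : Finset ι) (a : ZI) : IsCoprime a (8 * DD pr V) ↔
    a.norm % 2 = 1 ∧ ∀ i ∈ V, ¬ pr i ∣ a := by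
  unfold DD
  rw [IsCoprime.mul_right_iff, IsCoprime.prod_right_iff, norm_odd_iff]
  refine and_congr ?_ (forall₂_congr fun i _ => ?_)
  · constructor
    · intro h h'
      have h1 : pi1 ∣ (8 : ZI) := by
        rw [eight_eq_pi]
        exact (dvd_pow_self _ (by norm_num)).mul_right _
      exact pi1_not_dvd (isUnit_iff_dvd_one.1 (h.isUnit_of_dvd' h' h1))
    · intro h
      rw [eight_eq_pi]
      refine IsCoprime.mul_right (IsCoprime.pow_right ?_) ?_
      · exact ((pi1_prime.irreducible.coprime_iff_not_dvd).2 h).symm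
      · exact ⟨0, ⟨0, -1⟩, by rw [zero_mul, zero_add]; decide⟩
  · rw [isCoprime_comm]
    exact (hp.pp i).pr.irreducible.coprime_iff_not_dvd

lemma not_dvd_eight {π : ZI} (h : PP π) : ¬ π ∣ 8 := by
  intro h'
  have e : (8 : ZI) = 2 ^ 3 := by decide
  rw [e] at h'
  have h1 := h.pr.dvd_of_dvd_pow h'
  exact not_dvd_two2 h (h1.trans ⟨⟨1, 1⟩, by decide⟩)

lemma Uc_add {a b u : ZI} (h : Uc a u) (hab : (8 : ZI) ∣ a - b) : Uc b u ∧ rh (u * b) = rh (u * a) := by
  obtain ⟨t, ht⟩ := hab
  have e : u * b = u * a + 8 * (-(u * t)) := by linear_combination -u * ht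
  exact ⟨⟨h.1, by rw [e, Cc_add]; exact h.2⟩, by rw [e, rh_add]⟩

theorem XC_HC (hp : PF pr) {V : Finset ι} {e : ι → ℕ} (he : ∀ i ∈ V, e i % 4 ≠ 0) :
    HC (8 * DD pr V) (XC hp V e) where
  q0 := mul_ne_zero (by decide) (DD_ne hp V)
  per := by
    intro a b hab
    have h1 : (8 : ZI) ∣ a - b := (dvd_mul_right _ _).trans hab
    have h2 : DD pr V ∣ a - b := (dvd_mul_left _ _).trans hab
    rw [XC_apply, XC_apply]
    by_cases ha : ∃ u, Uc a u
    · obtain ⟨u, hu⟩ := ha
      obtain ⟨hw, hr⟩ := Uc_add hu h1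
      have hc : c4 pr V e (u * a) = c4 pr V e (u * b) := by
        apply c4_per hp
        rw [← mul_sub]
        exact h2.mul_left _
      rw [uc_eq hu, uc_eq hw, hc, hr]
    · have ha' : a.norm % 2 ≠ 1 := fun h => ha (exists_Uc h)
      have hb' : b.norm % 2 ≠ 1 := by
        intro hb
        obtain ⟨u, hu⟩ := exists_Uc hb
        have h3 : (8 : ZI) ∣ b - a := by rw [← neg_sub]; exact (dvd_neg).2 h1
        exact ha ⟨u, (Uc_add hu h3).1⟩
      rw [uc_even ha', uc_even hb', tc_zero, zero_mul, zero_mul]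
  supp := by
    intro a
    rw [cop_cnC hp V, XC_apply]
    constructor
    · intro h
      have h1 : a.norm % 2 = 1 := by
        by_contra hc
        apply h
        rw [uc_even hc, tc_zero, zero_mul]
      refine ⟨h1, fun i hi hd => h ?_⟩
      rw [c4_zero e hi (hd.mul_left _), mul_zero, tc_zero, map_zero, mul_zero]
    · rintro ⟨h1, h2⟩
      obtain ⟨u, hu⟩ := exists_Uc h1
      rw [uc_eq hu]
      have hn := c4_norm hp V e (a := u * a) (fun i hi h => h2 i hi ((qr_unit_mul (hp.pp i) hu.1 a).1 h))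
      have hn2 : (rh (u * a) * c4 pr V e (u * a)).norm = 1 := by
        rw [Zsqrtd.norm_mul, rh_norm, hn, one_mul]
      intro h0
      have h3 := congrArg norm h0
      rw [norm_mul, unit_tc hu.1, RCLike.norm_conj, unit_tc hn2, norm_zero] at h3
      norm_num at h3
  nrm := by
    intro a ha
    obtain ⟨h1, h2⟩ := (cop_cnC hp V a).1 ha
    obtain ⟨u, hu⟩ := exists_Uc h1
    have hn := c4_norm hp V e (a := u * a) (fun i hi h => h2 i hi ((qr_unit_mul (hp.pp i) hu.1 a).1 h))
    have hn2 : (rh (u * a) * c4 pr V e (u * a)).norm = 1 := by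
      rw [Zsqrtd.norm_mul, rh_norm, hn, one_mul]
    rw [XC_apply, uc_eq hu, norm_mul, unit_tc hu.1, one_mul, RCLike.norm_conj, unit_tc hn2]
  unit := by
    have h1 : Uc ⟨0, 1⟩ ⟨0, -1⟩ := by
      refine ⟨by decide, ?_⟩
      have : (⟨0, -1⟩ : ZI) * ⟨0, 1⟩ = 1 := by decide
      rw [this]
      exact Cc_one
    rw [XC_apply, uc_eq h1]
    have e : (⟨0, -1⟩ : ZI) * ⟨0, 1⟩ = 1 := by decide
    rw [e, c4_one hp, rh_one, mul_one, tc_one, map_one, mul_one]
    unfold tc
    simp
  prim := by
    intro d hd hnd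
    by_cases hB : ∃ i ∈ V, ¬ pr i ∣ d
    · obtain ⟨i, hi, hid⟩ := hB
      have hDi : DD pr V = pr i * DD pr (V.erase i) := by
        unfold DD
        exact (Finset.mul_prod_erase V pr hi).symm
      set m := 8 * DD pr (V.erase i) with hm
      have hcop : IsCoprime (pr i) m := by
        rw [hm]
        refine IsCoprime.mul_right ?_ ?_
        · exact ((hp.pp i).pr.irreducible.coprime_iff_not_dvd).2 (not_dvd_eight (hp.pp i))
        · unfold DD
          rw [IsCoprime.prod_right_iff]
          intro j hj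
          exact (hp.pp i).cop (hp.pp j) fun h => (Finset.mem_erase.1 hj).1 (hp.inj h).symm
      have hdm : d ∣ m := by
        have h1 : d ∣ pr i * m := by
          have e : pr i * m = 8 * DD pr V := by
            rw [hDi, hm]
            ring
          rw [e]; exact hd
        have h2 : IsCoprime d (pr i) :=
          (((hp.pp i).pr.irreducible.coprime_iff_not_dvd).2 hid).symm
        exact h2.dvd_of_dvd_mul_left h1
      -- an element with symbol of exact order
      obtain ⟨b, hb⟩ : ∃ b, ¬ pr i ∣ b ∧ q4 (pr i) b ^ e i ≠ 1 := by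
        obtain ⟨b, hb⟩ := exists_nonres (hp.pp i)
        have hbn : ¬ pr i ∣ b := by
          intro h
          rw [qr_zero_iff.2 h] at hb
          norm_num at hb
        have h5 := q4_sq (hp.pp i) b
        rw [hb] at h5
        refine ⟨b, hbn, ?_⟩
        have h6 := q4_norm (hp.pp i) hbn
        have h7 : ((-1 : ℤ) : ZI) = -1 := by simp
        rw [h7] at h5
        have h8 := he i hi
        rw [unit_pow_mod h6 (n := e i % 4) (by omega)]
        have h9 : e i % 4 = 1 ∨ e i % 4 = 2 ∨ e i % 4 = 3 := by omega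
        rcases h9 with h9 | h9 | h9 <;> rw [h9]
        · intro h10
          rw [pow_one] at h10
          rw [h10] at h5
          exact absurd h5 (by decide)
        · rw [h5]; decide
        · intro h10
          have h11 : q4 (pr i) b = -1 := by
            linear_combination -h10 + q4 (pr i) b * h5
          rw [h11] at h5
          exact absurd h5 (by decide)
      obtain ⟨x, y, hxy⟩ := hcop
      set a : ZI := x * pr i + b * (y * m) with ha
      have ha1 : m ∣ a - 1 := ⟨b * y - y, by rw [ha]; linear_combination hxy⟩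
      have ha2 : pr i ∣ a - b := ⟨x - b * x, by rw [ha]; linear_combination b * hxy⟩
      have h8a : (8 : ZI) ∣ 1 - a := by
        rw [← neg_sub]
        exact (dvd_neg).2 ((dvd_mul_right _ _).trans ha1)
      obtain ⟨hUa, hra⟩ := Uc_add (a := 1) (u := 1) ⟨by decide, by rw [one_mul]; exact Cc_one⟩ h8a
      have hpa : Cc a := by
        have := hUa.2
        rwa [one_mul] at this
      have hra' : rh a = 1 := by
        rwa [one_mul, one_mul, rh_one] at hra
      have hch : c4 pr V e a = q4 (pr i) b ^ e i := by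
        unfold c4
        rw [← Finset.mul_prod_erase V _ hi, fe_per (hp.pp i) _ ha2, Finset.prod_eq_one, mul_one]
        · unfold fe
          rw [if_neg hb.1]
        · intro j hj
          have h3 : pr j ∣ a - 1 := by
            refine (dvd_DD hj).trans ((dvd_mul_left _ _).trans ha1)
          rw [fe_per (hp.pp j) _ h3, fe_unit (hp.pp j) _ (by decide), one_pow]
      have hnz : ∀ j ∈ V, ¬ pr j ∣ a := by
        intro j hj hd'
        have h5 := c4_zero (pr := pr) e hj hd'
        rw [hch] at h5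
        have h6 := q4_norm (hp.pp i) hb.1
        have h7 : q4 (pr i) b = 0 := by
          by_contra h8
          exact (pow_ne_zero _ h8) h5
        rw [h7] at h6
        exact absurd h6 (by decide)
      refine ⟨a, ?_, hdm.trans ha1, ?_⟩
      · rw [cop_cnC hp V]
        exact ⟨Cc_odd hpa, hnz⟩
      · rw [XC_Cc hp V e hpa, hch, hra', one_mul]
        intro h5
        apply hb.2
        apply tc_inj
        rw [tc_one]
        have := congrArg (starRingEnd ℂ) h5
        rwa [Complex.conj_conj, map_one] at this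
    · push Not at hB
      have hD1 : DD pr V ∣ d := by
        unfold DD
        refine Finset.prod_dvd_of_coprime ?_ hB
        intro i _ j _ hij
        exact (hp.pp i).cop (hp.pp j) fun h => hij (hp.inj h)
      obtain ⟨f, hf⟩ := hD1
      have he2 : f ∣ 8 := by
        rw [hf, mul_comm 8] at hd
        exact (mul_dvd_mul_iff_left (DD_ne hp V)).1 hd
      have he3 : ¬ (8 : ZI) ∣ f := by
        intro h
        apply hnd
        rw [hf, mul_comm 8]
        exact mul_dvd_mul_left _ h
      have he4 : f ∣ pi1 ^ 5 := by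
        rw [eight_eq_pi] at he2
        have hu : IsUnit (⟨0, 1⟩ : ZI) := IsUnit.of_mul_eq_one ⟨0, -1⟩ (by decide)
        have he5 : f ∣ pi1 ^ 6 := (hu.dvd_mul_right).1 he2
        obtain ⟨k, hk, hk2⟩ := (dvd_prime_pow pi1_prime 6).1 he5
        have hk3 : k ≠ 6 := by
          rintro rfl
          apply he3
          rw [eight_eq_pi]
          exact (hu.mul_right_dvd).2 hk2.symm.dvd
        have hk4 : pi1 ^ k ∣ pi1 ^ 5 := pow_dvd_pow _ (by omega)
        exact hk2.dvd.trans hk4
      have hDp := DD_prim hp V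
      -- an element which is one modulo `D` and `5 + 4 i` modulo eight
      set D := DD pr V with hD
      set a : ZI := 1 + pi1 ^ 5 * D with ha
      have haD : D ∣ a - 1 := ⟨pi1 ^ 5, by rw [ha]; ring⟩
      have hpi : (pi1 ^ 5 : ZI) = ⟨-4, -4⟩ := by decide
      have q3 : a.re = 1 - 4 * D.re + 4 * D.im := by
        rw [ha, hpi]
        simp only [Zsqrtd.re_add, re_mul', Zsqrtd.re_one]
        ring
      have q4 : a.im = -4 * (D.re + D.im) := by
        rw [ha, hpi]
        simp only [Zsqrtd.im_add, im_mul', Zsqrtd.im_one]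
        ring
      have hCa : Cc a := by
        unfold Cc
        rw [q3, q4]
        omega
      have hra : rh a = -1 := by
        obtain ⟨h1, h2⟩ := hDp
        have h3 : (a.im / 2 % 4).toNat = 2 := by
          rw [q4]
          omega
        unfold rh
        rw [h3]
        decide
      have hca : c4 pr V e a = 1 := by
        rw [← c4_one hp V e]
        exact c4_per hp V e haD
      have hX : XC hp V e a = -1 := by
        rw [XC_Cc hp V e hCa, hra, hca, mul_one, tc_neg, tc_one, map_neg, map_one]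
      refine ⟨a, ?_, ?_, ?_⟩
      · rw [cop_cnC hp V]
        refine ⟨Cc_odd hCa, fun j hj hd' => ?_⟩
        have h4 : pr j ∣ a - 1 := (dvd_DD hj).trans haD
        have h5 := dvd_sub hd' h4
        rw [sub_sub_cancel] at h5
        exact (hp.pp j).pr.not_isUnit (isUnit_of_dvd_one h5)
      · obtain ⟨g, hg⟩ := he4
        rw [hf]
        exact ⟨g, by rw [ha]; linear_combination D * hg⟩
      · rw [hX]
        norm_num

open Classical in
lemma sum_unitsC {f : ZI → ℂ} (hf : Summable f) (hi : ∀ a, f (im1 * a) = f a)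
    (he : ∀ a : ZI, a.norm % 2 ≠ 1 → f a = 0) :
    ∑' a, f a = 4 * ∑' a, (if Cc a then f a else 0) := by
  have hinv : ∀ k : ℕ, ∀ a, f (im1 ^ k * a) = f a := by
    intro k
    induction k with
    | zero => intro a; rw [pow_zero, one_mul]
    | succ k ih => intro a; rw [pow_succ, mul_assoc, ih, hi]
  have e1 : ∀ a, f a = ∑ k ∈ Finset.range 4, (if Cc (im1 ^ k * a) then f (im1 ^ k * a) else 0) := by
    intro a
    by_cases ha : a.norm % 2 = 1
    · obtain ⟨u, hu⟩ := exists_Uc ha
      obtain ⟨k, hk, rfl⟩ : ∃ k, k < 4 ∧ u = im1 ^ k := by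
        rcases unit_cases hu.1 with h | h | h | h
        · exact ⟨0, by norm_num, by rw [h, pow_zero]⟩
        · exact ⟨1, by norm_num, by rw [h, pow_one]⟩
        · exact ⟨2, by norm_num, h⟩
        · exact ⟨3, by norm_num, h⟩
      rw [Finset.sum_eq_single k]
      · rw [if_pos hu.2, hinv]
      · intro j hj hjk
        rw [if_neg]
        intro h'
        apply hjk
        have hn : (im1 ^ j : ZI).norm = 1 := by
          have : ∀ j : ℕ, (im1 ^ j : ZI).norm = 1 := by
            intro j
            induction j with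
            | zero => simp
            | succ j ih => rw [pow_succ, Zsqrtd.norm_mul, ih]; decide
          exact this j
        have h3 := (Uc.unique (a := a) ⟨hn, h'⟩ hu)
        rw [Finset.mem_range] at hj
        interval_cases j <;> interval_cases k <;> first | rfl | (exfalso; revert h3; decide)
      · intro hk'
        exact absurd (Finset.mem_range.2 hk) hk'
    · rw [he a ha]
      symm
      refine Finset.sum_eq_zero fun k _ => ?_
      rw [hinv, he a ha]
      simp
  have hsum : ∀ k : ℕ, Summable (fun a => if Cc (im1 ^ k * a) then f (im1 ^ k * a) else 0) := by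
    intro k
    refine Summable.of_norm_bounded hf.norm fun a => ?_
    rw [hinv]
    split_ifs
    · exact le_rfl
    · simp
  have hperm : ∀ k : ℕ, ∑' a, (if Cc (im1 ^ k * a) then f (im1 ^ k * a) else 0) =
      ∑' a, (if Cc a then f a else 0) := by
    intro k
    have hu : IsUnit (im1 ^ k : ZI) := (IsUnit.of_mul_eq_one (-im1) (by decide : im1 * -im1 = 1)).pow k
    obtain ⟨e, he⟩ := hu
    rw [← (Units.mulLeft e).tsum_eq (fun a => if Cc a then f a else 0)]
    refine tsum_congr fun a => ?_
    rw [Units.mulLeft_apply, he]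
  rw [tsum_congr e1, Summable.tsum_finsetSum (fun k _ => hsum k), Finset.sum_congr rfl
    (fun k _ => hperm k), Finset.sum_const, Finset.card_range]
  simp

theorem sum_XC (hp : PF pr) {V : Finset ι} {e : ι → ℕ}
    (he : ∀ i ∈ V, e i % 4 ≠ 0) {δ : ℝ} (hδ : 0 < δ) :
    ∑' a : ZI, XC hp V e a * (starRingEnd ℂ) (fd δ (tc a)) =
      4 * (starRingEnd ℂ) (RS (ccm pr V e) δ) := by
  classical
  obtain ⟨L, Ω, hGL⟩ := exists_lat
  have H := XC_HC hp he
  have hs : Summable (fun a : ZI => XC hp V e a * (starRingEnd ℂ) (fd δ (tc a))) := by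
    refine Summable.of_norm_bounded (summ_tc hGL.lat hδ).norm fun a => ?_
    rw [norm_mul, RCLike.norm_conj]
    exact mul_le_of_le_one_left (norm_nonneg _) (chi_le _ _ H a)
  rw [sum_unitsC hs]
  · congr 1
    unfold RS
    rw [Complex.conj_tsum]
    refine tsum_congr fun a => ?_
    unfold ccm
    by_cases ha : Cc a
    · rw [if_pos ha, if_pos ha, XC_Cc hp V e ha, map_mul]
    · rw [if_neg ha, if_neg ha, zero_mul, map_zero]
  · intro a
    have h1 : XC hp V e im1 = -I := H.unit
    rw [map_mul, h1, tc_mul, tc_im1, fd_mul]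
    have h2 : Complex.normSq I = 1 := by simp
    rw [h2, mul_one, map_mul, map_inv₀, Complex.conj_I]
    have h3 : (-I : ℂ)⁻¹ = I := by
      rw [inv_neg, Complex.inv_I, neg_neg]
    rw [h3]
    linear_combination (-(XC hp V e a * (starRingEnd ℂ) (fd δ (tc a)))) * I_sq
  · intro a ha
    rw [XC_apply, uc_even ha, tc_zero]
    simp

/-- the central value is the conjugate of the limit -/
theorem LH_eqC (hp : PF pr) {V : Finset ι} {e : ι → ℕ}
    (he : ∀ i ∈ V, e i % 4 ≠ 0) {l : ℂ} (hl : Tendsto (RS (ccm pr V e)) (𝓝[>] 0) (𝓝 l)) :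
    LH (XC hp V e) (1 / 2) = (starRingEnd ℂ) l := by
  have h1 := center (XC_HC hp he)
  have h2 : Tendsto (fun δ : ℝ => 4 * (starRingEnd ℂ) (RS (ccm pr V e) (Real.pi * δ))) (𝓝[>] 0)
      (𝓝 (4 * (starRingEnd ℂ) l)) := by
    have h3 := tendsto_scale hl Real.pi_pos
    have h4 := (Complex.continuous_conj.tendsto l).comp h3
    have h5 := h4.const_mul 4
    refine h5.congr fun δ => ?_
    simp only [Function.comp_apply]
    rw [mul_comm δ]
  have h3 := tendsto_nhds_unique h1 (h2.congr' (by
    filter_upwards [self_mem_nhdsWithin] with δ (hδ : 0 < δ)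
    exact (sum_XC hp he (by positivity)).symm))
  exact mul_left_cancel₀ (by norm_num) h3

/-- **module A3** -/
theorem hec : S_HEC := by
  intro ι _ pr hp V e he
  exact ⟨XC hp V e, XC_HC hp he, fun a ha => XC_Cc hp V e ha, fun l hl => LH_eqC hp he hl⟩

end Pool.Agent.D0H54.Q4
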