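import Pool.Agent.D0H54.Q4.RhsoA
import Pool.Agent.D0H2.Q4.ValI
import Pool.Agent.D0H2.Q4.RhsI

/-!
# Project Q4, module D2.7: the sums of the values, class `b = 1`
-/

set_option autoImplicit false

open Filter Complex
open scoped Topology PeriodPair

namespace Pool.Agent.D0H54.Q4.O

open H385 (ZI RQ im1 nrm)
open Pool.Agent.H304R3.HK (tc)
open Pool.Agent.W164.RC (tc_mul unit_cases)
open Pool.Agent.H304R2.EC.A1 (prim prim_ne_zero prim_norm_odd)
open Pool.Agent.TH936.CM (IsLat)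
open Pool.Agent.Y699 Pool.Agent.D0H10.Q4 Pool.Agent.D0H43.Q4
open Pool.Agent.D0H2.Q4
open Pool.Agent.D0H15.Q4 (Sl SS un Per uR uR_apply)

variable {L : PeriodPair} {Ω : ℂ}

lemma PO_per (σ : ℕ) (u w : ℂ) (hw : w ∈ L.lattice) : PO σ L (u + w) = PO σ L u := by
  unfold PO
  rw [AA_per _ _ hw, BB_per _ _ hw]

lemma GO_per (σ : ℕ) (u w : ℂ) (hw : w ∈ L.lattice) : GO σ L Ω (u + w) = GO σ L Ω u := by
  unfold GO
  have e1 : u + w + (1 - I) * (Ω / 16) = (u + (1 - I) * (Ω / 16)) + w := by ring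
  have e2 : (u + (1 - I) * (Ω / 16)) + w + (1 - I) * (Ω / 4) =
    (u + (1 - I) * (Ω / 16) + (1 - I) * (Ω / 4)) + w := by ring
  have e3 : (u + (1 - I) * (Ω / 16)) + w + Ω / 4 = (u + (1 - I) * (Ω / 16) + Ω / 4) + w := by ring
  have e4 : (u + (1 - I) * (Ω / 16) + Ω / 4) + w + (1 - I) * (Ω / 4) =
    (u + (1 - I) * (Ω / 16) + Ω / 4 + (1 - I) * (Ω / 4)) + w := by ring
  rw [e1, PO_per _ _ _ hw, e2, PO_per _ _ _ hw, e3, PO_per _ _ _ hw, e4, PO_per _ _ _ hw]

section

variable {Γ : Type} [LinearOrderedCommGroupWithZero Γ] {v : Valuation ℂ Γ}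

lemma res_nat (n : ℕ) : res v (n : ℂ) = (n : AA' v) := by
  induction n with
  | zero => rw [Nat.cast_zero, res_zero, Nat.cast_zero]
  | succ n ih => rw [Nat.cast_succ, res_add (v_nat n) (by rw [map_one]), ih, res_one, Nat.cast_succ]

/-- the residue of the quadratic polynomial in the abscissa -/
lemma Y2_cg (h2 : v 2 < 1) (h : GLat L Ω) {z w : ℂ} (hz : OT L z) (hw : OT L w) :
    Cg v ((℘[L] (2 * z) ^ 2 - 1 - 2 * I) / 4) (Xd L ((1 + I) * z) w + Xd L z w + 1) := by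
  have hz2 := OT.dbl h hz
  have hw2 := OT.dbl h hw
  have hz1 : OT L ((1 + I) * z) := by
    have := hz.pow h 1
    rwa [pow_one] at this
  obtain ⟨h3, -⟩ := h.mul_pi (hz2.two h)
  have a1 := wp_add_I h2 h hz2 (Or.inl rfl)
  have a2 := wp_add_I h2 h (OT.dbl h hz1) (Or.inl rfl)
  have a3 := (wp_sub h2 h hw2).1
  have b1 := Xd_le h2 h hz hw
  have b2 := Xd_le h2 h hz1 hw
  have hg := v_pi_lt h2
  have hg0 := v_pi_ne (v := v)
  have hR : v (Xd L ((1 + I) * z) w + Xd L z w + 1) ≤ 1 :=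
    v.map_add_le (v.map_add_le b2 b1) (by rw [map_one])
  have key : v ((℘[L] (2 * z) ^ 2 - 1 - 2 * I) / 4 - (Xd L ((1 + I) * z) w + Xd L z w + 1)) < 1 := by
    have e0 : (1 + I) * (2 * z) = 2 * ((1 + I) * z) := by ring
    rw [e0] at h3
    unfold Xd
    set x := ℘[L] (2 * z)
    set x' := ℘[L] (2 * ((1 + I) * z))
    set y := ℘[L] (2 * w)
    have e1 : (x ^ 2 - 1 - 2 * I) / 4 - ((x' - y) / 2 + (x - y) / 2 + 1) =
        I * ((x + I) * (x' + I) / 2) + (y - 1) := by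
      linear_combination -(1 / 4) * h3 - (1 / 2) * (x + x' + I) * I_sq
    rw [e1]
    refine v.map_add_lt ?_ (by rw [a3]; exact hg)
    rw [map_mul, v_I, one_mul, map_div₀, map_mul]
    have e2 : v (x' + I) = v (x + I) := v_inj two_ne_zero (by rw [a1, a2])
    rw [e2, ← sq, a1, ← v_pi_sq, pow_succ, mul_comm, mul_div_assoc,
      div_self (pow_ne_zero 2 hg0), mul_one]
    exact hg
  refine ⟨?_, hR, key⟩
  have e5 : (℘[L] (2 * z) ^ 2 - 1 - 2 * I) / 4 =
      ((℘[L] (2 * z) ^ 2 - 1 - 2 * I) / 4 - (Xd L ((1 + I) * z) w + Xd L z w + 1)) +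
        (Xd L ((1 + I) * z) w + Xd L z w + 1) := by ring
  rw [e5]
  exact v.map_add_le key.le hR

end

lemma dvd_f7 {π : ZI} (h : PP π) {t : ZI} : π ∣ f7 * t ↔ π ∣ t := by
  refine ⟨fun h1 => ?_, fun h1 => h1.mul_left _⟩
  have e : f7 * t = 8 * (l1 * t) := by
    have : (f7 : ZI) = 8 * l1 := by decide
    rw [this]; ring
  rw [e] at h1
  exact (h.pr.dvd_or_dvd ((dvd_eight h).1 h1)).resolve_left (not_dvd_l1 h)

/-- the quadratic supplementary law -/
lemma qr_l1_of (hS : S_SUPL) : ∀ π : ZI, PP π →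
    (if qr π l1 = -1 then (1 : ZMod 2) else 0) = (xl π : ZMod 2) := by
  intro π h
  have h1 : q4 π l1 ^ 2 = (qr π l1 : ZI) := q4_sq h l1
  rw [hS π h, ← pow_mul, mul_comm, pow_mul, Pool.Agent.D0H2.Q4.im1_sq'] at h1
  rcases Nat.even_or_odd (xl π) with h3 | h3
  · rw [h3.neg_one_pow] at h1
    have h4 : ((1 : ℤ) : ZI) = ((qr π l1 : ℤ) : ZI) := by
      rw [← h1]; rfl
    have h5 := Int.cast_injective h4
    rw [← h5, if_neg (by norm_num), (ZMod.natCast_eq_zero_iff_even).2 h3]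
  · rw [h3.neg_one_pow] at h1
    have h4 : ((-1 : ℤ) : ZI) = ((qr π l1 : ℤ) : ZI) := by
      rw [← h1]; rfl
    have h5 := Int.cast_injective h4
    rw [← h5, if_pos rfl, (ZMod.natCast_eq_one_iff_odd).2 h3]

/-- **Module D2.7.** -/
theorem rhso (hS : S_SUPL) (hV : S_VALO) : S_RHSO := by
  classical
  intro σ L Ω s hN Γ _ v h2 ι _ pr hp V e hVn he w hw
  have hl1 := qr_l1_of hS
  obtain ⟨hval, hrat⟩ := hV σ L Ω s hN Γ v h2
  have hDo : (DD pr V).norm % 2 = 1 := prim_norm_odd (DD_prim hp V)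
  have hD0 : DD pr V ≠ 0 := DD_ne hp V
  have hfin : Finite (RQ (DD pr V)) := H385.he1_finite hD0
  have : Fintype (RQ (DD pr V)) := Fintype.ofFinite _
  rw [finsum_eq_sum_of_fintype]
  obtain ⟨i0, hi0⟩ := id hVn
  obtain ⟨H, hH⟩ := exists_half hDo
  have hl := one_I_ne
  -- the products
  set P : RQ (DD pr V) → ℂ := fun q => ∏ j ∈ V, pf (pr j) (e j) (f7 * q.out) with hPd
  have hgood : ∀ q : RQ (DD pr V), (∀ i ∈ V, ¬ pr i ∣ q.out) → ∀ i ∈ V, ¬ pr i ∣ f7 * q.out :=
    fun q hq i hi h => hq i hi ((dvd_f7 (hp.pp i)).1 h)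
  have hgD : ∀ q : RQ (DD pr V), (∀ i ∈ V, ¬ pr i ∣ q.out) → ¬ DD pr V ∣ q.out :=
    fun q hq h => hq i0 hi0 ((dvd_DD hi0).trans h)
  have hbad : ∀ q : RQ (DD pr V), ¬ (∀ i ∈ V, ¬ pr i ∣ q.out) → P q = 0 := by
    intro q hq
    push Not at hq
    obtain ⟨i, hi, hd⟩ := hq
    exact Finset.prod_eq_zero hi (pf_zero (hd.mul_left f7))
  have hgneg : ∀ q : RQ (DD pr V), ∀ i ∈ V, pr i ∣ (-q).out ↔ pr i ∣ q.out := by
    intro q i hi
    have h3 : pr i ∣ (-q).out - (-q.out) := (dvd_DD hi).trans (out_neg _ q)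
    rw [sub_neg_eq_add] at h3
    exact ⟨fun h => (dvd_add_right h).1 h3, fun h => (dvd_add_left h).1 h3⟩
  have hPneg : ∀ q, P (-q) = ∏ j ∈ V, pf (pr j) (e j) (-(f7 * q.out)) := by
    intro q
    refine Finset.prod_congr rfl fun j hj => pf_per (hp.pp j) ?_
    have h3 : pr j ∣ (-q).out - (-q.out) := (dvd_DD hj).trans (out_neg _ q)
    have e3 : f7 * (-q).out - -(f7 * q.out) = f7 * ((-q).out - (-q.out)) := by ring
    rw [e3]
    exact h3.mul_left f7
  have hbad' : ∀ q : RQ (DD pr V), ¬ (∀ i ∈ V, ¬ pr i ∣ q.out) → P (-q) = 0 := by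
    intro q hq
    apply hbad
    intro h
    exact hq fun i hi => by rw [← hgneg q i hi]; exact h i hi
  have hfac : ∀ q : RQ (DD pr V), (∀ i ∈ V, ¬ pr i ∣ q.out) → ∀ j ∈ V,
      Cg v (pf (pr j) (e j) (f7 * q.out)) (uu (oo pr j (l1 * q.out))) := by
    intro q hq j hj
    have h3 := (pf_val h2 (hp.pp j) (he j hj) (hgood q hq j hj)).2
    have e3 : oo pr j (l1 * q.out) = if qr (pr j) (f7 * q.out) = -1 then 1 else 0 := by
      have e4 : (8 : ZI) * (l1 * q.out) = f7 * q.out := by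
        have : (f7 : ZI) = 8 * l1 := by decide
        rw [this]; ring
      unfold oo
      rw [e4]
    rw [e3]
    exact h3
  have hPle : ∀ q, v (P q) ≤ 1 := by
    intro q
    by_cases hq : ∀ i ∈ V, ¬ pr i ∣ q.out
    · show v (∏ j ∈ V, pf (pr j) (e j) (f7 * q.out)) ≤ 1
      rw [map_prod]
      exact Finset.prod_le_one' fun j hj => (hfac q hq j hj).l
    · rw [hbad q hq, map_zero]
      exact zero_le_one
  have hP0 : P 0 = 0 := by
    apply hbad
    intro h
    apply h i0 hi0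
    have h3 : DD pr V ∣ (0 : RQ (DD pr V)).out := by
      have h4 := RQ_out (DD pr V) 0
      rwa [map_zero, sub_zero] at h4
    exact (dvd_DD hi0).trans h3
  have hPres : ∀ q : RQ (DD pr V), (∀ i ∈ V, ¬ pr i ∣ q.out) →
      res v (P q) = uA (∏ i ∈ V, oo pr i (l1 * q.out)) := by
    intro q hq
    rw [res_prod V fun j hj => (hfac q hq j hj).l, uA_prod]
    refine Finset.prod_congr rfl fun j hj => ?_
    rw [res_cg (hfac q hq j hj), res_uu]
  -- the quotients
  set Q : RQ (DD pr V) → ℂ := fun q => (P q + P (-q)) / (1 + I) with hQd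
  have hQm : ∀ q, (1 + I) * Q q = P q + P (-q) := fun q => by
    rw [hQd]
    field_simp
  have hQval : ∀ q : RQ (DD pr V), (∀ i ∈ V, ¬ pr i ∣ q.out) → v (Q q) ≤ 1 ∧
      res v (Q q) = ∑ j ∈ V, uA (wt pr j * ∏ k ∈ V.erase j, oo pr k (l1 * q.out)) := by
    intro q hq
    obtain ⟨Q', hQ1, hQ2⟩ := prod_neg h2 V (fun j => pf (pr j) (e j) (f7 * q.out))
      (fun j => pf (pr j) (e j) (-(f7 * q.out))) (wt pr) (fun j hj => (hfac q hq j hj).l) (by
        intro j hj
        rcases pf_neg (hp.pp j) (he j hj) (hgood q hq j hj) with ⟨h3, h4⟩ | ⟨h3, h4⟩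
        · left
          exact ⟨by unfold wt; rw [if_neg h3], h4⟩
        · right
          exact ⟨by unfold wt; rw [if_pos h3], h4⟩)
    have hQe : Q q = Q' := by
      apply mul_left_cancel₀ hl
      rw [hQm, hPneg, ← hQ1]
    rw [hQe]
    refine ⟨hQ2.l, ?_⟩
    have hle : ∀ j ∈ V, ∀ k ∈ V.erase j, v (pf (pr k) (e k) (f7 * q.out)) ≤ 1 :=
      fun j _ k hk => (hfac q hq k (Finset.mem_of_mem_erase hk)).l
    have hle2 : ∀ j ∈ V, v (∏ k ∈ V.erase j, pf (pr k) (e k) (f7 * q.out)) ≤ 1 := by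
      intro j hj
      rw [map_prod]
      exact Finset.prod_le_one' fun k hk => hle j hj k hk
    rw [res_cg hQ2, res_sum]
    · refine Finset.sum_congr rfl fun j hj => ?_
      rw [res_mul (v_uu _) (hle2 j hj), res_uu, uA_mul, uA_prod, res_prod _ (hle j hj)]
      congr 1
      refine Finset.prod_congr rfl fun k hk => ?_
      rw [res_cg (hfac q hq k (Finset.mem_of_mem_erase hk)), res_uu]
    · intro j hj
      rw [map_mul]
      exact mul_le_one' (v_uu _) (hle2 j hj)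
  -- the points
  set z : RQ (DD pr V) → ℂ := fun q => zq Ω (DD pr V) q.out with hzd
  have hzO : ∀ q : RQ (DD pr V), (∀ i ∈ V, ¬ pr i ∣ q.out) → OT L (z q) :=
    fun q hq => OTq hN.gl hDo (hgD q hq)
  have hzO' : ∀ q : RQ (DD pr V), (∀ i ∈ V, ¬ pr i ∣ q.out) → OT L (-z q) :=
    fun q hq => Pool.Agent.D0H2.Q4.OT.ng (hzO q hq)
  have hzneg : ∀ q, GO σ L Ω (z (-q)) = GO σ L Ω (-z q) := by
    intro q
    have h3 := zq_sub hN.gl.lat hD0 (out_neg _ q)
    have e3 : z (-q) = -z q + (zq Ω (DD pr V) (-q).out - zq Ω (DD pr V) (-q.out)) := by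
      show zq Ω (DD pr V) (-q).out = -zq Ω (DD pr V) q.out + _
      rw [zq_neg]
      ring
    rw [e3, GO_per σ _ _ h3]
  have hGne : ∀ z, OT L z → GO σ L Ω z ≠ 0 := by
    intro z hz h0
    have h3 := (hval z hz).1
    rw [h0, map_zero, zero_pow (by norm_num)] at h3
    exact pow_ne_zero 19 (v_pi_ne (v := v)) h3.symm
  have hGw := hGne w hw
  set Y : RQ (DD pr V) → ℂ := fun q => (℘[L] (2 * z q) ^ 2 - 1 - 2 * I) / 4 + σ with hYd
  have hYle : ∀ q : RQ (DD pr V), (∀ i ∈ V, ¬ pr i ∣ q.out) → v (Y q) ≤ 1 :=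
    fun q hq => ((hval _ (hzO q hq)).2.1).r
  have hterm : ∀ q : RQ (DD pr V), (∀ i ∈ V, ¬ pr i ∣ q.out) →
      Cg v ((P q * GO σ L Ω (z q) + P (-q) * GO σ L Ω (z (-q))) / ((1 + I) * GO σ L Ω w))
        (P q * Y q + Q q) := by
    intro q hq
    have a1 := (hval _ (hzO q hq)).2.1
    have a2 := hrat _ w (hzO q hq) hw
    have a3 := hrat _ w (hzO' q hq) hw
    have hGz := hGne _ (hzO q hq)
    have hQ := (hQval q hq).1
    have b1 := ((Cg.refl (hPle q)).mul a1).mul a2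
    have b2 : Cg v ((1 - I) * P q) 0 := by
      apply Cg.zero
      rw [map_mul]
      refine lt_of_le_of_lt (mul_le_of_le_one_right' (hPle q)) ?_
      have e2 : (1 : ℂ) - I = -I * (1 + I) := by linear_combination I_sq
      rw [e2, map_mul, Valuation.map_neg, v_I, one_mul]
      exact v_pi_lt h2
    have b3 := ((Cg.refl hQ).sub b2).mul a3
    have b4 := b1.add b3
    have e1 : (P q * GO σ L Ω (z q) + P (-q) * GO σ L Ω (z (-q))) / ((1 + I) * GO σ L Ω w) =
        P q * ((GO σ L Ω (z q) + GO σ L Ω (-z q)) / ((1 + I) * GO σ L Ω (z q))) *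
          (GO σ L Ω (z q) / GO σ L Ω w) +
        (Q q - (1 - I) * P q) * (GO σ L Ω (-z q) / GO σ L Ω w) := by
      rw [hzneg]
      have e3 : P (-q) = (1 + I) * Q q - P q := by linear_combination -hQm q
      rw [e3]
      have e4 : (1 - I) = 2 / (1 + I) := by
        rw [eq_div_iff hl]
        linear_combination -I_sq
      rw [e4]
      field_simp
      ring
    have e2 : P q * Y q + Q q = P q * ((℘[L] (2 * z q) ^ 2 - 1 - 2 * I) / 4 + σ) * 1 +
        (Q q - 0) * 1 := by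
      rw [hYd]
      ring
    rw [e1, e2]
    exact b4
  -- the sum
  have hs := sum_half hH (fun q => P q * GO σ L Ω (z q)) (by
    show P 0 * GO σ L Ω (z 0) = 0
    rw [hP0, zero_mul])
  have hs2 : (∑ q, P q * GO σ L Ω (z q)) / ((1 + I) * GO σ L Ω w) =
      ∑ q, if q ∈ H then (P q * GO σ L Ω (z q) + P (-q) * GO σ L Ω (z (-q))) /
        ((1 + I) * GO σ L Ω w) else 0 := by
    rw [hs, Finset.sum_div]
    refine Finset.sum_congr rfl fun q _ => ?_
    split_ifs
    · rfl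
    · rw [zero_div]
  have hsum : Cg v (∑ q, if q ∈ H then (P q * GO σ L Ω (z q) + P (-q) * GO σ L Ω (z (-q))) /
        ((1 + I) * GO σ L Ω w) else 0)
      (∑ q, if q ∈ H then (if ∀ i ∈ V, ¬ pr i ∣ q.out then P q * Y q + Q q else 0) else 0) := by
    refine Cg.sum _ fun q _ => ?_
    by_cases hq : q ∈ H
    · rw [if_pos hq, if_pos hq]
      by_cases hq2 : ∀ i ∈ V, ¬ pr i ∣ q.out
      · rw [if_pos hq2]
        exact hterm q hq2
      · rw [if_neg hq2, hbad q hq2, hbad' q hq2]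
        simp only [zero_mul, add_zero, zero_div]
        exact Cg.refl (by rw [map_zero]; exact zero_le_one)
    · rw [if_neg hq, if_neg hq]
      exact Cg.refl (by rw [map_zero]; exact zero_le_one)
  show Cg v ((∑ q, P q * GO σ L Ω (z q)) / ((1 + I) * GO σ L Ω w)) _
  rw [hs2]
  refine hsum.trans (cg_res hsum.r (v_uu _) ?_)
  -- the residues
  have h2A := res_two h2
  have hF := Fr_dst dst hN h2 hw
  have hTle : ∀ q : RQ (DD pr V), (∀ i ∈ V, ¬ pr i ∣ q.out) → v (P q * Y q) ≤ 1 := by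
    intro q hq
    rw [map_mul]
    exact mul_le_one' (hPle q) (hYle q hq)
  have hle2 : ∀ q : RQ (DD pr V), v (if q ∈ H then (if ∀ i ∈ V, ¬ pr i ∣ q.out then
      P q * Y q + Q q else 0) else 0) ≤ 1 := by
    intro q
    split_ifs with h3 h4
    · exact v.map_add_le (hTle q h4) (hQval q h4).1
    · rw [map_zero]; exact zero_le_one
    · rw [map_zero]; exact zero_le_one
  rw [res_sum _ fun q _ => hle2 q, res_uu]
  -- the selection
  let mk := Ideal.Quotient.mk (Ideal.span {DD pr V})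
  let S : ZI → AA' v := fun t => if mk t ∈ H then 1 else 0
  have hSl : Sl pr V S := by
    constructor
    · intro t s
      have h1 : mk (t + DD pr V * s) = mk t := (Y699.mk_eq_mk _ _).2 ⟨s, by ring⟩
      show (if mk (t + DD pr V * s) ∈ H then (1 : AA' v) else 0) = _
      rw [h1]
    · intro t ht
      have h0 : mk t ≠ 0 := fun h => ht.not_dvd hVn ((Y699.mk_eq_zero _).1 h)
      have h1 := hH.2 (mk t) h0
      have h3 : mk (-t) = -mk t := map_neg _ _
      show (if mk t ∈ H then (1 : AA' v) else 0) + (if mk (-t) ∈ H then (1 : AA' v) else 0) = 1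
      rw [h3]
      by_cases h : mk t ∈ H
      · rw [if_pos h, if_neg (h1.1 h), add_zero]
      · have h4 : -mk t ∈ H := by
          by_contra h5
          exact h (h1.2 h5)
        rw [if_neg h, if_pos h4, zero_add]
  have key := combo h2A hp hF hl1 hVn hSl σ
  rw [← key, Pool.Agent.D0H15.Q4.SS_eq]
  refine Finset.sum_congr rfl fun q _ => ?_
  have h1 : mk q.out = q := Ideal.Quotient.mk_out q
  show _ = (if mk q.out ∈ H then (1 : AA' v) else 0) * _
  rw [h1]
  by_cases hq : q ∈ H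
  · rw [if_pos hq, if_pos hq, one_mul]
    by_cases hq2 : ∀ i ∈ V, ¬ pr i ∣ q.out
    · have hq3 : un pr V q.out := hq2
      rw [if_pos hq2, if_pos hq3, res_add (hTle q hq2) (hQval q hq2).1, (hQval q hq2).2,
        res_mul (hPle q) (hYle q hq2), hPres q hq2]
      congr 2
      have hz := hzO q hq2
      have hY2 := Y2_cg h2 hN.gl hz hw
      have hz1 : OT L ((1 + I) * z q) := by
        have := hz.pow hN.gl 1
        rwa [pow_one] at this
      have c1 := Xd_le h2 hN.gl hz hw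
      have c2 := Xd_le h2 hN.gl hz1 hw
      have hnd : ¬ DD pr V ∣ l1 * q.out := by
        intro h
        exact hq2 i0 hi0 (((hp.pp i0).pr.dvd_or_dvd ((dvd_DD hi0).trans h)).resolve_left
          (not_dvd_l1 (hp.pp i0)))
      have e4 : zq Ω (DD pr V) (l1 * q.out) = (1 + I) * z q := by
        rw [zq_mul]
        congr 1
        simp [tc, l1]
      rw [Fr_pos hDo (hgD q hq2), Fr_pos hDo hnd, e4]
      show res v ((℘[L] (2 * z q) ^ 2 - 1 - 2 * I) / 4 + σ) = _
      rw [res_add hY2.l (v_nat σ), res_nat, res_cg hY2, res_add (v.map_add_le c2 c1) (by rw [map_one]),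
        res_add c2 c1, res_one]
    · have hq3 : ¬ un pr V q.out := hq2
      rw [if_neg hq2, if_neg hq3, res_zero]
  · rw [if_neg hq, if_neg hq, zero_mul, res_zero]

end Pool.Agent.D0H54.Q4.O
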