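import Pool.Agent.D0H15.Q4.End
import Pool.Agent.D0H43.Q4.Stm4
import Pool.Agent.D0H2.Q4.Rhs3

/-!
# Project Q4, module D2.7: the combinatorial part
-/

set_option autoImplicit false

open Finset

namespace Pool.Agent.D0H54.Q4.O

open H385 (ZI RQ im1 nrm)
open Pool.Agent.Y699
open Pool.Agent.D0H10.Q4 (oo uA Dst Half)
open Pool.Agent.D0H15.Q4
open Pool.Agent.D0H43.Q4 (l1 f7 ham hO sl xl)
open Pool.Agent.H304R2.EC.A1 (prim prim_mul prim_norm_odd prim_ne_zero)

variable {A : Type} [CommRing A] {ι : Type} [DecidableEq ι] {pr : ι → ZI} {F : ZI → ZI → A}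

lemma cop_l1 {D : ZI} (hD : D.norm % 2 = 1) : IsCoprime (l1 : ZI) D :=
  (Pool.Agent.D0H2.Q4.cop_of_odd hD).symm

lemma not_dvd_l1 {π : ZI} (h : PP π) : ¬ π ∣ (l1 : ZI) := by
  intro h1
  have h2 : IsCoprime π (l1 : ZI) := (cop_l1 (prim_norm_odd h.prm)).symm
  exact h.pr.not_isUnit (h2.isUnit_of_dvd' dvd_rfl h1)

lemma un_l1 (hp : PF pr) {V : Finset ι} {t : ZI} : un pr V (l1 * t) ↔ un pr V t := by
  refine forall₂_congr fun k _ => not_congr ?_
  constructor
  · intro h
    exact ((hp.pp k).pr.dvd_or_dvd h).resolve_left (not_dvd_l1 (hp.pp k))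
  · exact fun h => h.mul_left _

/-- multiplication by `1 + i` -/
lemma SS_l1 (h2 : (2 : A) = 0) (hp : PF pr) {V : Finset ι} (hV : V.Nonempty) {S : ZI → A}
    (hS : Sl pr V S) {g : ZI → A} (hg : Per (DD pr V) g) (hev : ∀ t, g (-t) = g t)
    (hz : ∀ t, ¬ un pr V t → g t = 0) :
    SS (DD pr V) (fun t => S t * g (l1 * t)) = SS (DD pr V) (fun t => S t * g t) := by
  have hD := DD_odd hp V
  have hD0 : DD pr V ≠ 0 := DD_ne hp _
  obtain ⟨u, w, huw⟩ := cop_l1 hD
  have hne : ∀ t, g t ≠ 0 → un pr V t := fun t ht => by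
    by_contra h
    exact ht (hz t h)
  have hS' : Sl pr V (fun t => S (u * t)) := by
    constructor
    · intro t s
      show S (u * (t + DD pr V * s)) = S (u * t)
      have e : u * (t + DD pr V * s) = u * t + DD pr V * (u * s) := by ring
      rw [e, hS.per]
    · intro t ht
      have h1 : un pr V (u * t) := by
        intro k hk h
        rcases (hp.pp k).pr.dvd_or_dvd h with h1 | h1
        · have h3 : pr k ∣ 1 := by
            rw [← huw]
            exact dvd_add (h1.mul_right _) ((dvd_DD' hk).mul_left _)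
          exact (hp.pp k).pr.not_isUnit (isUnit_of_dvd_one h3)
        · exact ht k hk h1
      have h3 := hS.one (u * t) h1
      show S (u * t) + S (u * -t) = 1
      rw [mul_neg]
      exact h3
  have e1 : (fun t => S t * g (l1 * t)) = fun t => (fun r => S (u * r) * g r) (l1 * t) := by
    funext t
    show S t * g (l1 * t) = S (u * (l1 * t)) * g (l1 * t)
    congr 1
    refine hS.per.of_dvd ⟨w * t, ?_⟩
    linear_combination -t * huw
  have hper : Per (DD pr V) (fun r => S (u * r) * g r) := by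
    intro t s
    have a1 := hS'.per t s
    have a2 := hg t s
    simp only [a1, a2]
  rw [e1, SS_unit hD0 (cop_l1 hD) hper]
  exact (sel_indep h2 hD hS.per hS'.per hg hev (hz 0 (fun h => h.not_dvd hV (dvd_zero _)))
    (fun t ht => hS.one t (hne t ht)) (fun t ht => hS'.one t (hne t ht))).symm

omit [DecidableEq ι] in
lemma oo_l1 (hp : PF pr) (hl : ∀ π : ZI, PP π → (if qr π l1 = -1 then (1 : ZMod 2) else 0) = (xl π : ZMod 2))
    {i : ι} {t : ZI} (ht : ¬ pr i ∣ t) : oo pr i (l1 * t) = sl pr i + oo pr i t := by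
  have hi := hp.pp i
  have h1 := not_dvd_l1 hi
  have e : 8 * (l1 * t) = l1 * (8 * t) := by ring
  have e2 : sl pr i = if qr (pr i) l1 = -1 then (1 : ZMod 2) else 0 := (hl _ hi).symm
  rw [e2]
  unfold oo
  rw [e, qr_mul hi]
  have h3 : (1 : ZMod 2) + 1 = 0 := by decide
  rcases qr_cases h1 with h | h <;> rcases qr_cases (not_dvd_eight hi ht) with h' | h' <;>
    rw [h, h'] <;> norm_num
  exact h3.symm

/-- the Hamiltonian paths weighted by `t` at both ends -/
lemma ham_tt (pr : ι → ZI) (hp : PF pr) (V : Finset ι) :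
    ham (wt pr) (wt pr) (Y699.em pr) V = if V.card = 1 then ∑ j ∈ V, wt pr j else 0 := by
  unfold ham
  rcases Nat.eq_zero_or_pos V.card with h0 | h0
  · rw [Finset.card_eq_zero] at h0
    subst h0
    simp
  obtain ⟨n, hn⟩ : ∃ n, V.card = n + 1 := ⟨V.card - 1, by omega⟩
  have e : V.card - 1 = n := by omega
  rw [e]
  cases n with
  | zero =>
    obtain ⟨m, rfl⟩ := Finset.card_eq_one.1 hn
    rw [if_pos hn, Finset.sum_singleton, Finset.sum_singleton, Finset.sum_singleton, Qp, if_pos ⟨rfl, rfl⟩]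
    rcases zm (wt pr m) with h | h <;> rw [h] <;> decide
  | succ n =>
    rw [if_neg (by omega)]
    have h3 : (2 : ZMod 2) = 0 := by decide
    have hsy : ∀ i j, Y699.em pr i j = Y699.em pr j i := fun i j => by
      unfold Y699.em
      rw [qr_rec (hp.pp i) (hp.pp j)]
    exact path_zero h3 hsy (wt pr) n V

lemma ham_add (s s' t : ι → ZMod 2) (c : ZMod 2) (B : ι → ι → ZMod 2) (V : Finset ι) :
    ham (fun j => s j + c * s' j) t B V = ham s t B V + c * ham s' t B V := by
  unfold ham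
  rw [Finset.mul_sum, ← Finset.sum_add_distrib]
  refine Finset.sum_congr rfl fun a _ => ?_
  rw [Finset.mul_sum, ← Finset.sum_add_distrib]
  refine Finset.sum_congr rfl fun b _ => ?_
  ring

lemma ham_hO (hp : PF pr) (σ : ℕ) (V : Finset ι) : ham (hO σ pr) (wt pr) (Y699.em pr) V =
    ham (sl pr) (wt pr) (Y699.em pr) V + σ * if V.card = 1 then ∑ j ∈ V, wt pr j else 0 := by
  have e : hO σ pr = fun j => sl pr j + (σ : ZMod 2) * wt pr j := rfl
  rw [e, ham_add, ham_tt pr hp]

open Classical in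
/-- the sums with one omitted factor without the function `F` -/
lemma omit_one (h2 : (2 : A) = 0) (hp : PF pr) (hF : Dst F) {V : Finset ι} {m : ι} (hm : m ∈ V)
    {S : ZI → A} (hS : Sl pr V S) :
    SS (DD pr V) (fun t => S t * (if un pr V t then uA (∏ k ∈ V.erase m, oo pr k t) else 0)) = 0 := by
  obtain ⟨n, hn⟩ : ∃ n, V.card = n + 1 := ⟨V.card - 1, by have := Finset.card_pos.2 ⟨m, hm⟩; omega⟩
  have hD0 : DD pr V ≠ 0 := DD_ne hp _
  have a1 := Psi_path h2 hp hF n V m hm hn S hS
  have a2 := Psi_path h2 hp (Pool.Agent.D0H2.Q4.Dst.succ h2 hF) n V m hm hn S hS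
  rw [← a1] at a2
  unfold Psi at a2
  have e1 : (fun t => S t * gf pr (fun D t => F D t + 1) V {m} t) = fun t =>
      S t * gf pr F V {m} t + S t * (if un pr V t then uA (∏ k ∈ V.erase m, oo pr k t) else 0) := by
    funext t
    unfold gf
    rw [Finset.sdiff_singleton_eq_erase]
    split_ifs
    · ring
    · ring
  rw [e1, SS_add hD0] at a2
  exact add_eq_left.1 a2

open Classical in
/-- the sums without the function `F` -/
lemma omit_all (h2 : (2 : A) = 0) (hp : PF pr) {V : Finset ι} (hV : V.Nonempty)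
    {S : ZI → A} (hS : Sl pr V S) :
    SS (DD pr V) (fun t => S t * (if un pr V t then uA (∏ k ∈ V, oo pr k t) else 0)) =
      uA (if V.card = 1 then ∑ j ∈ V, wt pr j else 0) := by
  obtain ⟨m, hm⟩ := hV
  by_cases h1 : V.card = 1
  · obtain ⟨a, rfl⟩ := Finset.card_eq_one.1 h1
    rw [if_pos h1, Finset.sum_singleton]
    exact first_one h2 hp a hS
  · rw [if_neg h1, ← uR_apply h2, map_zero]
    have hc : (V.erase m).card = V.card - 1 := Finset.card_erase_of_mem hm
    have h3 := Finset.card_pos.2 ⟨m, hm⟩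
    exact first_two h2 hp hm (Finset.card_pos.1 (by omega)) hS

open Classical in
/-- **the sums over half systems** -/
theorem combo (h2 : (2 : A) = 0) (hp : PF pr) (hF : Dst F)
    (hl : ∀ π : ZI, PP π → (if qr π l1 = -1 then (1 : ZMod 2) else 0) = (xl π : ZMod 2))
    {V : Finset ι} (hV : V.Nonempty) {S : ZI → A} (hS : Sl pr V S) (σ : ℕ) :
    SS (DD pr V) (fun t => S t * (if un pr V t then
      uA (∏ k ∈ V, oo pr k (l1 * t)) * (F (DD pr V) (l1 * t) + F (DD pr V) t + 1 + (σ : A)) +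
        ∑ j ∈ V, uA (wt pr j * ∏ k ∈ V.erase j, oo pr k (l1 * t)) else 0)) =
    uA (ham (hO σ pr) (wt pr) (Y699.em pr) V + if V.card = 1 then ∑ j ∈ V, wt pr j else 0) := by
  have hD0 : DD pr V ≠ 0 := DD_ne hp _
  set D := DD pr V with hD
  let g2 : ZI → A := fun t => if un pr V t then uA (∏ k ∈ V, oo pr k t) else 0
  let g3 : ι → ZI → A := fun m t => if un pr V t then uA (∏ k ∈ V.erase m, oo pr k t) else 0
  have hg2 : Per D g2 := by
    intro t s
    have h1 : DD pr V ∣ (t + DD pr V * s) - t := ⟨s, by ring⟩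
    have h3 : ∏ k ∈ V, oo pr k (t + DD pr V * s) = ∏ k ∈ V, oo pr k t :=
      Finset.prod_congr rfl fun k hk => oo_per ((dvd_DD' hk).trans h1)
    show (if un pr V (t + DD pr V * s) then uA (A := A) (∏ k ∈ V, oo pr k (t + DD pr V * s)) else 0) =
      if un pr V t then uA (∏ k ∈ V, oo pr k t) else 0
    rw [h3]
    exact if_congr (un_per h1) rfl rfl
  have hg2e : ∀ t, g2 (-t) = g2 t := by
    intro t
    show (if un pr V (-t) then uA (A := A) (∏ k ∈ V, oo pr k (-t)) else 0) =
      if un pr V t then uA (∏ k ∈ V, oo pr k t) else 0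
    simp only [oo_neg hp]
    exact if_congr un_neg rfl rfl
  have hg3 : ∀ m, Per D (g3 m) := by
    intro m t s
    have h1 : DD pr V ∣ (t + DD pr V * s) - t := ⟨s, by ring⟩
    have h3 : ∏ k ∈ V.erase m, oo pr k (t + DD pr V * s) = ∏ k ∈ V.erase m, oo pr k t :=
      Finset.prod_congr rfl fun k hk => oo_per ((dvd_DD' (Finset.mem_of_mem_erase hk)).trans h1)
    show (if un pr V (t + DD pr V * s) then uA (A := A) (∏ k ∈ V.erase m, oo pr k (t + DD pr V * s))
      else 0) = if un pr V t then uA (∏ k ∈ V.erase m, oo pr k t) else 0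
    rw [h3]
    exact if_congr (un_per h1) rfl rfl
  have hg3e : ∀ m t, g3 m (-t) = g3 m t := by
    intro m t
    show (if un pr V (-t) then uA (A := A) (∏ k ∈ V.erase m, oo pr k (-t)) else 0) =
      if un pr V t then uA (∏ k ∈ V.erase m, oo pr k t) else 0
    simp only [oo_neg hp]
    exact if_congr un_neg rfl rfl
  -- the four parts
  have e : (fun t => S t * (if un pr V t then
      uA (∏ k ∈ V, oo pr k (l1 * t)) * (F D (l1 * t) + F D t + 1 + (σ : A)) +
        ∑ j ∈ V, uA (wt pr j * ∏ k ∈ V.erase j, oo pr k (l1 * t)) else 0)) =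
      fun t => (S t * gf pr F V ∅ (l1 * t) +
        ∑ W ∈ V.powerset, uA (∏ k ∈ W, sl pr k) * (S t * gf pr F V W t)) +
        ((1 + (σ : A)) * (S t * g2 (l1 * t)) +
        ∑ j ∈ V, uA (wt pr j) * (S t * g3 j (l1 * t))) := by
    funext t
    by_cases ht : un pr V t
    · have ht' : un pr V (l1 * t) := (un_l1 hp).2 ht
      have a1 : gf pr F V ∅ (l1 * t) = uA (∏ k ∈ V, oo pr k (l1 * t)) * F D (l1 * t) := by
        unfold gf
        rw [if_pos ht', Finset.sdiff_empty]
      have a2 : ∑ W ∈ V.powerset, uA (∏ k ∈ W, sl pr k) * (S t * gf pr F V W t) =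
          S t * (uA (∏ k ∈ V, oo pr k (l1 * t)) * F D t) := by
        have b1 : ∏ k ∈ V, oo pr k (l1 * t) = ∏ k ∈ V, (sl pr k + oo pr k t) :=
          Finset.prod_congr rfl fun k hk => oo_l1 hp hl (ht k hk)
        rw [b1, Finset.prod_add, ← uR_apply h2, map_sum, Finset.sum_mul, Finset.mul_sum]
        refine Finset.sum_congr rfl fun W _ => ?_
        unfold gf
        rw [if_pos ht, map_mul, uR_apply, uR_apply]
        ring
      have a3 : g2 (l1 * t) = uA (∏ k ∈ V, oo pr k (l1 * t)) := if_pos ht'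
      have a4 : ∀ j, g3 j (l1 * t) = uA (∏ k ∈ V.erase j, oo pr k (l1 * t)) := fun j => if_pos ht'
      rw [if_pos ht, a1, a2, a3]
      simp only [a4]
      have a5 : ∑ j ∈ V, uA (wt pr j * ∏ k ∈ V.erase j, oo pr k (l1 * t)) =
          ∑ j ∈ V, uA (A := A) (wt pr j) * uA (∏ k ∈ V.erase j, oo pr k (l1 * t)) := by
        refine Finset.sum_congr rfl fun j _ => ?_
        rw [← uR_apply h2, map_mul, uR_apply, uR_apply]
      rw [a5]
      have a6 : ∑ j ∈ V, uA (A := A) (wt pr j) * (S t * uA (∏ k ∈ V.erase j, oo pr k (l1 * t))) =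
          S t * ∑ j ∈ V, uA (A := A) (wt pr j) * uA (∏ k ∈ V.erase j, oo pr k (l1 * t)) := by
        rw [Finset.mul_sum]
        refine Finset.sum_congr rfl fun j _ => ?_
        ring
      rw [a6]
      ring
    · have ht' : ¬ un pr V (l1 * t) := fun h => ht ((un_l1 hp).1 h)
      have a1 : gf pr F V ∅ (l1 * t) = 0 := if_neg ht'
      have a2 : ∀ W, gf pr F V W t = 0 := fun W => if_neg ht
      have a3 : g2 (l1 * t) = 0 := if_neg ht'
      have a4 : ∀ j, g3 j (l1 * t) = 0 := fun j => if_neg ht'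
      rw [if_neg ht, a1, a3]
      simp only [a2, a4, mul_zero, Finset.sum_const_zero, add_zero]
  rw [e, SS_add hD0, SS_add hD0, SS_add hD0, SS_sum hD0, SS_sum hD0]
  simp only [SS_mul hD0]
  rw [SS_l1 h2 hp hV hS (gf_per hF V ∅) (gf_neg hp hF V ∅) (fun t ht => if_neg ht),
    SS_l1 h2 hp hV hS hg2 hg2e (fun t ht => if_neg ht)]
  have k2 : SS D (fun t => S t * g2 t) = uA (if V.card = 1 then ∑ j ∈ V, wt pr j else 0) :=
    omit_all h2 hp hV hS
  have k3 : ∑ j ∈ V, uA (wt pr j) * SS D (fun t => S t * g3 j (l1 * t)) = 0 := by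
    refine Finset.sum_eq_zero fun j hj => ?_
    rw [SS_l1 h2 hp hV hS (hg3 j) (hg3e j) (fun t ht => if_neg ht)]
    have : SS D (fun t => S t * g3 j t) = 0 := omit_one h2 hp hF hj hS
    rw [this, mul_zero]
  -- the sums with phases
  have k1 : ∑ W ∈ V.powerset, uA (∏ k ∈ W, sl pr k) * SS D (fun t => S t * gf pr F V W t) =
      SS D (fun t => S t * gf pr F V ∅ t) +
        ∑ m ∈ V, uA (sl pr m) * SS D (fun t => S t * gf pr F V {m} t) := by
    have hmem : (∅ : Finset ι) ∈ V.powerset := Finset.empty_mem_powerset _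
    rw [← Finset.add_sum_erase _ _ hmem, Finset.prod_empty, ← uR_apply h2 1, map_one, one_mul]
    congr 1
    have hsub : V.map ⟨fun k => ({k} : Finset ι), Finset.singleton_injective⟩ ⊆ V.powerset.erase ∅ := by
      intro U hU
      rw [Finset.mem_map] at hU
      obtain ⟨k, hk, rfl⟩ := hU
      rw [Finset.mem_erase, Finset.mem_powerset]
      exact ⟨Finset.singleton_ne_empty k, Finset.singleton_subset_iff.2 hk⟩
    rw [← Finset.sum_subset hsub, Finset.sum_map]
    · refine Finset.sum_congr rfl fun k _ => ?_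
      show uA (∏ j ∈ {k}, sl pr j) * _ = _
      rw [Finset.prod_singleton]
      rfl
    · intro U hU hU'
      rw [Finset.mem_erase, Finset.mem_powerset] at hU
      have h0 : U.card ≠ 0 := fun h => hU.1 (Finset.card_eq_zero.1 h)
      have h1 : U.card ≠ 1 := by
        intro h
        obtain ⟨k, rfl⟩ := Finset.card_eq_one.1 h
        apply hU'
        rw [Finset.mem_map]
        exact ⟨k, Finset.singleton_subset_iff.1 hU.2, rfl⟩
      have h3 : SS D (fun t => S t * gf pr F V U t) = 0 := Psi_two h2 hp hF V U hU.2 (by omega) S hS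
      rw [h3, mul_zero]
  obtain ⟨n, hn⟩ : ∃ n, V.card = n + 1 := ⟨V.card - 1, by have := hV.card_pos; omega⟩
  have k4 : ∑ m ∈ V, uA (sl pr m) * SS D (fun t => S t * gf pr F V {m} t) =
      uA (ham (sl pr) (wt pr) (Y699.em pr) V) := by
    unfold ham
    rw [← uR_apply h2 (∑ a ∈ V, _), map_sum]
    refine Finset.sum_congr rfl fun m hm => ?_
    have h3 : SS D (fun t => S t * gf pr F V {m} t) =
        ∑ b ∈ V, uA (Qp (Y699.em pr) n V m b) * uA (wt pr b) := Psi_path h2 hp hF n V m hm hn S hS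
    rw [h3, map_sum, Finset.mul_sum]
    refine Finset.sum_congr rfl fun b _ => ?_
    have e1 : V.card - 1 = n := by omega
    rw [map_mul, map_mul, uR_apply, uR_apply, uR_apply, mul_assoc, e1]
  rw [k1, k2, k3, k4, add_zero, ham_hO hp]
  have k5 : (σ : A) = uR h2 (σ : ZMod 2) := (map_natCast (uR h2) σ).symm
  rw [k5, ← uR_apply h2, ← uR_apply h2, ← uR_apply h2, map_add, map_add, map_mul]
  linear_combination (SS D fun t => S t * gf pr F V ∅ t) * h2

end Pool.Agent.D0H54.Q4.O
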